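import Mathlib

set_option autoImplicit false

/-!
Trigonometric series converging to zero on an interval: the coefficients tend to zero
(Cantor-Lebesgue).
-/

namespace Pool.Agent.TH275.UQ

open Filter Topology MeasureTheory

/-- `exp(2πi n x)` -/
noncomputable def ex (n : ℤ) (x : ℝ) : ℂ :=
  Complex.exp (2 * (Real.pi:ℂ) * Complex.I * (n:ℂ) * (x:ℂ))

lemma ex_eq (n : ℤ) (x : ℝ) : ex n x = Complex.exp (((2 * Real.pi * n * x : ℝ) : ℂ) * Complex.I) := by
  unfold ex
  congr 1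
  push_cast
  ring

lemma ex_norm (n : ℤ) (x : ℝ) : ‖ex n x‖ = 1 := by
  rw [ex_eq, Complex.norm_exp_ofReal_mul_I]

lemma ex_zero (x : ℝ) : ex 0 x = 1 := by simp [ex]

lemma ex_zero_right (n : ℤ) : ex n 0 = 1 := by simp [ex]

lemma ex_add_left (m n : ℤ) (x : ℝ) : ex (m + n) x = ex m x * ex n x := by
  unfold ex
  rw [← Complex.exp_add]
  congr 1
  push_cast
  ring

lemma ex_add_right (n : ℤ) (x y : ℝ) : ex n (x + y) = ex n x * ex n y := by
  unfold ex
  rw [← Complex.exp_add]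
  congr 1
  push_cast
  ring

lemma ex_neg (n : ℤ) (x : ℝ) : ex (-n) x = starRingEnd ℂ (ex n x) := by
  rw [ex_eq, ex_eq, ← Complex.exp_conj, map_mul, Complex.conj_ofReal, Complex.conj_I]
  congr 1
  push_cast
  ring

lemma ex_neg_right (n : ℤ) (x : ℝ) : ex n (-x) = starRingEnd ℂ (ex n x) := by
  rw [← ex_neg, ex_eq, ex_eq]
  congr 2
  push_cast
  ring

lemma ex_mul_conj (n : ℤ) (x : ℝ) : ex n x * starRingEnd ℂ (ex n x) = 1 := by
  rw [← ex_neg, ← ex_add_left, add_neg_cancel, ex_zero]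

lemma ex_cont (n : ℤ) : Continuous (ex n) := by
  unfold ex
  fun_prop

/-- symmetric partial sums of a function on `ℤ`, as sums over `ℕ` -/
def sym (f : ℤ → ℂ) : ℕ → ℂ
  | 0 => f 0
  | (k + 1) => f ((k : ℤ) + 1) + f (-((k : ℤ) + 1))

lemma Icc_succ (N : ℕ) : Finset.Icc (-((N + 1 : ℕ) : ℤ)) ((N + 1 : ℕ) : ℤ) =
    insert (-((N : ℤ) + 1)) (insert ((N : ℤ) + 1) (Finset.Icc (-(N : ℤ)) N)) := by
  ext x
  simp only [Finset.mem_Icc, Finset.mem_insert]
  push_cast
  constructor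
  · intro h
    omega
  · intro h
    omega

lemma sum_sym (f : ℤ → ℂ) (N : ℕ) :
    ∑ n ∈ Finset.Icc (-(N : ℤ)) N, f n = ∑ k ∈ Finset.range (N + 1), sym f k := by
  induction N with
  | zero => simp [sym]
  | succ N ih =>
    rw [Icc_succ, Finset.sum_insert, Finset.sum_insert, ih, Finset.sum_range_succ _ (N + 1)]
    · simp only [sym]
      ring
    · simp only [Finset.mem_Icc]
      omega
    · simp only [Finset.mem_insert, Finset.mem_Icc]
      omega

/-- symmetric partial sums of the trigonometric series -/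
noncomputable def S (c : ℤ → ℂ) (N : ℕ) (x : ℝ) : ℂ :=
  ∑ n ∈ Finset.Icc (-(N:ℤ)) (N:ℤ), c n * ex n x

lemma S_eq (c : ℤ → ℂ) (N : ℕ) (x : ℝ) :
    S c N x = ∑ k ∈ Finset.range (N + 1), sym (fun n => c n * ex n x) k := sum_sym _ _

/-- the integral of an exponential -/
lemma int_ex (n : ℤ) (hn : n ≠ 0) (p q : ℝ) :
    ‖∫ x in p..q, ex n x‖ ≤ 1 / (Real.pi * |(n : ℝ)|) := by
  have hn' : (n : ℂ) ≠ 0 := by exact_mod_cast hn
  have hpi : (Real.pi : ℂ) ≠ 0 := by exact_mod_cast Real.pi_ne_zero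
  have hc : (2 * (Real.pi:ℂ) * Complex.I * (n:ℂ)) ≠ 0 := by
    simp [hn', hpi, Complex.I_ne_zero]
  have h1 : ∫ x in p..q, ex n x =
      (ex n q - ex n p) / (2 * (Real.pi:ℂ) * Complex.I * (n:ℂ)) := by
    unfold ex
    rw [integral_exp_mul_complex hc]
  rw [h1, norm_div]
  have h2 : ‖ex n q - ex n p‖ ≤ 2 := by
    refine (norm_sub_le _ _).trans ?_
    rw [ex_norm, ex_norm]; norm_num
  have h3 : ‖(2 * (Real.pi:ℂ) * Complex.I * (n:ℂ))‖ = 2 * (Real.pi * |(n : ℝ)|) := by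
    simp only [norm_mul, Complex.norm_I, Complex.norm_real, Complex.norm_ofNat, mul_one,
      Real.norm_eq_abs, abs_of_pos Real.pi_pos, Complex.norm_intCast]
    ring
  rw [h3]
  have hpos : 0 < Real.pi * |(n : ℝ)| := by
    have : (n : ℝ) ≠ 0 := by exact_mod_cast hn
    have := abs_pos.2 this
    have := Real.pi_pos
    positivity
  rw [div_le_div_iff₀ (by positivity) hpos]
  nlinarith

/-- **Cantor-Lebesgue.** -/
theorem cantor_lebesgue (c : ℤ → ℂ) (p q : ℝ) (hpq : p < q)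
    (h : ∀ x ∈ Set.Ioo p q, Tendsto (fun N : ℕ => S c N x) atTop (𝓝 0)) :
    Tendsto (fun n : ℕ => ‖c ((n : ℤ) + 1)‖ ^ 2 + ‖c (-((n : ℤ) + 1))‖ ^ 2) atTop (𝓝 0) := by
  set ρ : ℕ → ℝ := fun n => ‖c ((n : ℤ) + 1)‖ ^ 2 + ‖c (-((n : ℤ) + 1))‖ ^ 2 with hρ
  have hρ0 : ∀ n, 0 ≤ ρ n := fun n => by positivity
  let A : ℕ → ℝ → ℂ := fun n x => c ((n : ℤ) + 1) * ex ((n : ℤ) + 1) x +
    c (-((n : ℤ) + 1)) * ex (-((n : ℤ) + 1)) x
  have hAc : ∀ n, Continuous (A n) := fun n =>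
    (continuous_const.mul (ex_cont _)).add (continuous_const.mul (ex_cont _))
  have hA0 : ∀ x ∈ Set.Ioo p q, Tendsto (fun n => A n x) atTop (𝓝 0) := by
    intro x hx
    have h1 := h x hx
    have h2 := h1.comp (tendsto_add_atTop_nat 1)
    have h3 := h2.sub h1
    rw [sub_zero] at h3
    refine h3.congr fun n => ?_
    simp only [Function.comp_apply, S_eq]
    rw [Finset.sum_range_succ _ (n + 1)]
    simp only [sym, A]
    ring
  -- the square of the absolute value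
  have hsq : ∀ n x, ‖A n x‖ ^ 2 = ρ n + 2 * (c ((n : ℤ) + 1) *
      starRingEnd ℂ (c (-((n : ℤ) + 1))) * ex (2 * ((n : ℤ) + 1)) x).re := by
    intro n x
    set m : ℤ := (n : ℤ) + 1 with hm
    have e1 : ex (2 * m) x = ex m x * ex m x := by rw [two_mul, ex_add_left]
    rw [← Complex.normSq_eq_norm_sq]
    simp only [A, ← hm]
    rw [Complex.normSq_add, Complex.normSq_eq_norm_sq, Complex.normSq_eq_norm_sq, norm_mul, norm_mul,
      ex_norm, ex_norm, mul_one, mul_one]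
    rw [map_mul, ← ex_neg, neg_neg, e1]
    congr 2
    ring_nf
  have hle : ∀ n x, ‖A n x‖ ^ 2 ≤ 2 * ρ n := by
    intro n x
    have h1 : ‖A n x‖ ≤ ‖c ((n : ℤ) + 1)‖ + ‖c (-((n : ℤ) + 1))‖ := by
      refine (norm_add_le _ _).trans ?_
      rw [norm_mul, norm_mul, ex_norm, ex_norm, mul_one, mul_one]
    have h2 := norm_nonneg (A n x)
    have h3 : ‖A n x‖ ^ 2 ≤ (‖c ((n : ℤ) + 1)‖ + ‖c (-((n : ℤ) + 1))‖) ^ 2 := by gcongr
    refine h3.trans ?_
    simp only [hρ]
    nlinarith [sq_nonneg (‖c ((n : ℤ) + 1)‖ - ‖c (-((n : ℤ) + 1))‖)]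
  -- dominated convergence
  have hdct : Tendsto (fun n => ∫ x in p..q, ‖A n x‖ ^ 2 / (1 + ρ n)) atTop (𝓝 0) := by
    have h0 : (∫ x in p..q, (0 : ℝ)) = 0 := by simp
    rw [← h0]
    apply intervalIntegral.tendsto_integral_filter_of_dominated_convergence (fun _ => 2)
    · refine Eventually.of_forall fun n => ?_
      exact (((hAc n).norm.pow 2).div_const _).aestronglyMeasurable
    · refine Eventually.of_forall fun n => ae_of_all _ fun x _ => ?_
      rw [Real.norm_eq_abs, abs_of_nonneg (div_nonneg (by positivity) (by linarith [hρ0 n])),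
        div_le_iff₀ (by linarith [hρ0 n])]
      have := hle n x
      linarith
    · exact intervalIntegrable_const
    · have hae : ∀ᵐ x : ℝ, x ≠ q := by
        rw [ae_iff]
        simp
      filter_upwards [hae] with x hxq hx
      rw [Set.uIoc_of_le hpq.le] at hx
      have hx' : x ∈ Set.Ioo p q := ⟨hx.1, lt_of_le_of_ne hx.2 hxq⟩
      have h1 := (hA0 x hx').norm.pow 2
      rw [norm_zero, zero_pow two_ne_zero] at h1
      refine squeeze_zero (fun n => div_nonneg (by positivity) (by linarith [hρ0 n])) (fun n => ?_) h1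
      apply div_le_self (by positivity)
      linarith [hρ0 n]
  -- lower bound of the integrals
  have hlow : ∀ n : ℕ, 1 / (q - p) ≤ (n : ℝ) →
      ρ n / (1 + ρ n) * ((q - p) / 2) ≤ ∫ x in p..q, ‖A n x‖ ^ 2 / (1 + ρ n) := by
    intro n hn
    rw [intervalIntegral.integral_div]
    have e1 : ∫ x in p..q, ‖A n x‖ ^ 2 = ρ n * (q - p) + 2 * (c ((n : ℤ) + 1) *
        starRingEnd ℂ (c (-((n : ℤ) + 1))) * ∫ x in p..q, ex (2 * ((n : ℤ) + 1)) x).re := by
      simp_rw [hsq]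
      have hc1 : Continuous fun x => (c ((n : ℤ) + 1) *
          starRingEnd ℂ (c (-((n : ℤ) + 1))) * ex (2 * ((n : ℤ) + 1)) x) :=
        continuous_const.mul (ex_cont _)
      rw [intervalIntegral.integral_add (f := fun _ => ρ n) (g := fun x => 2 * (c ((n : ℤ) + 1) *
          starRingEnd ℂ (c (-((n : ℤ) + 1))) * ex (2 * ((n : ℤ) + 1)) x).re) intervalIntegrable_const
        ((continuous_const.mul (Complex.continuous_re.comp hc1)).intervalIntegrable _ _),
        intervalIntegral.integral_const, intervalIntegral.integral_const_mul, smul_eq_mul,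
        mul_comm (q - p)]
      congr 2
      rw [← intervalIntegral.integral_const_mul]
      have := (Complex.reCLM.intervalIntegral_comp_comm (hc1.intervalIntegrable p q)
        (μ := volume))
      simpa using this
    have hqp : 0 < q - p := by linarith
    have e2 : |2 * (c ((n : ℤ) + 1) *
        starRingEnd ℂ (c (-((n : ℤ) + 1))) * ∫ x in p..q, ex (2 * ((n : ℤ) + 1)) x).re| ≤
        ρ n * ((q - p) / 2) := by
      rw [abs_mul, abs_two]
      have h1 := Complex.abs_re_le_norm (c ((n : ℤ) + 1) *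
        starRingEnd ℂ (c (-((n : ℤ) + 1))) * ∫ x in p..q, ex (2 * ((n : ℤ) + 1)) x)
      rw [norm_mul, norm_mul, RCLike.norm_conj] at h1
      have h2 := int_ex (2 * ((n : ℤ) + 1)) (by omega) p q
      have h3 : (1 : ℝ) / (Real.pi * |((2 * ((n : ℤ) + 1) : ℤ) : ℝ)|) ≤ (q - p) / 2 := by
        have h4 : |((2 * ((n : ℤ) + 1) : ℤ) : ℝ)| = 2 * ((n : ℝ) + 1) := by
          push_cast
          rw [abs_of_pos (by positivity)]
        rw [h4]
        rw [div_le_iff₀ hqp] at hn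
        rw [div_le_iff₀ (by positivity)]
        have := Real.pi_gt_three
        have h5 : (1 : ℝ) ≤ (n : ℝ) * (q - p) := hn
        nlinarith [mul_pos (by linarith : (0:ℝ) < Real.pi - 3) hqp, mul_nonneg (mul_nonneg (by linarith : (0:ℝ) ≤ Real.pi - 3) (Nat.cast_nonneg (α := ℝ) n)) hqp.le]
      have h6 : 0 ≤ ‖c ((n : ℤ) + 1)‖ * ‖c (-((n : ℤ) + 1))‖ := by positivity
      have h7 : 2 * (‖c ((n : ℤ) + 1)‖ * ‖c (-((n : ℤ) + 1))‖) ≤ ρ n := by
        simp only [hρ]
        nlinarith [sq_nonneg (‖c ((n : ℤ) + 1)‖ - ‖c (-((n : ℤ) + 1))‖)]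
      calc 2 * |_| ≤ 2 * (‖c ((n : ℤ) + 1)‖ * ‖c (-((n : ℤ) + 1))‖ *
            ‖∫ x in p..q, ex (2 * ((n : ℤ) + 1)) x‖) := by linarith
        _ ≤ 2 * (‖c ((n : ℤ) + 1)‖ * ‖c (-((n : ℤ) + 1))‖ * ((q - p) / 2)) := by
            gcongr
            exact h2.trans h3
        _ = 2 * (‖c ((n : ℤ) + 1)‖ * ‖c (-((n : ℤ) + 1))‖) * ((q - p) / 2) := by ring
        _ ≤ _ := by gcongr
    rw [e1, div_mul_eq_mul_div]
    apply div_le_div_of_nonneg_right _ (by linarith [hρ0 n])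
    have := (abs_le.1 e2).1
    linarith
  -- conclusion
  have hqp : 0 < q - p := by linarith
  have h1 : Tendsto (fun n => ρ n / (1 + ρ n) * ((q - p) / 2)) atTop (𝓝 0) := by
    refine squeeze_zero' (Eventually.of_forall fun n =>
      mul_nonneg (div_nonneg (hρ0 n) (by linarith [hρ0 n])) (by linarith)) ?_ hdct
    obtain ⟨n0, hn0⟩ := exists_nat_ge (1 / (q - p))
    filter_upwards [eventually_ge_atTop n0] with n hn
    exact hlow n (hn0.trans (by exact_mod_cast hn))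
  have h2 : Tendsto (fun n => ρ n / (1 + ρ n)) atTop (𝓝 0) := by
    have := h1.mul_const (2 / (q - p))
    rw [zero_mul] at this
    refine this.congr fun n => ?_
    field_simp
  have h3 : Tendsto (fun n => (ρ n / (1 + ρ n)) / (1 - ρ n / (1 + ρ n))) atTop (𝓝 0) := by
    have := h2.div (h2.const_sub 1) (by norm_num)
    rw [sub_zero, zero_div] at this
    exact this
  refine h3.congr fun n => ?_
  have := hρ0 n
  field_simp
  ring

/-- The coefficients are bounded and tend to zero along the integers. -/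
theorem coeff_tendsto (c : ℤ → ℂ) (p q : ℝ) (hpq : p < q)
    (h : ∀ x ∈ Set.Ioo p q, Tendsto (fun N : ℕ => S c N x) atTop (𝓝 0)) :
    ∀ ε : ℝ, 0 < ε → ∃ M : ℕ, ∀ n : ℤ, M ≤ n.natAbs → ‖c n‖ ≤ ε := by
  intro ε hε
  have h1 := cantor_lebesgue c p q hpq h
  rw [Metric.tendsto_atTop] at h1
  obtain ⟨M, hM⟩ := h1 (ε ^ 2) (by positivity)
  refine ⟨M + 1, fun n hn => ?_⟩
  have h2 := hM (n.natAbs - 1) (by omega)
  have h3 : ((n.natAbs - 1 : ℕ) : ℤ) + 1 = |n| := by
    rw [Int.abs_eq_natAbs]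
    omega
  rw [h3, Real.dist_eq, sub_zero, abs_of_nonneg (by positivity)] at h2
  have h4 : ‖c n‖ ^ 2 < ε ^ 2 := by
    rcases abs_choice n with h5 | h5
    · rw [h5] at h2
      have : 0 ≤ ‖c (-n)‖ ^ 2 := by positivity
      linarith
    · rw [h5, neg_neg] at h2
      have : 0 ≤ ‖c (-n)‖ ^ 2 := by positivity
      linarith
  exact (lt_of_pow_lt_pow_left₀ 2 hε.le h4).le

end Pool.Agent.TH275.UQ
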