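import Mathlib
import Pool.Agent.TH275.UQ.Basic

set_option autoImplicit false

/-!
Riemann's theorem on the twice formally integrated series, and Schwarz's lemma.
-/

namespace Pool.Agent.TH275.UQ

open Filter Topology MeasureTheory

/-! ### The function `(sin t / t)²` -/

noncomputable def u (t : ℝ) : ℝ := Real.sinc t ^ 2

lemma u_zero : u 0 = 1 := by simp [u]

lemma u_neg (t : ℝ) : u (-t) = u t := by simp [u]

lemma u_nonneg (t : ℝ) : 0 ≤ u t := by unfold u; positivity

lemma u_le_one (t : ℝ) : u t ≤ 1 := by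
  unfold u
  rw [← sq_abs]
  exact pow_le_one₀ (abs_nonneg _) (Real.abs_sinc_le_one t)

lemma u_cont : Continuous u := Real.continuous_sinc.pow 2

lemma u_of_ne {t : ℝ} (ht : t ≠ 0) : u t = Real.sin t ^ 2 / t ^ 2 := by
  unfold u
  rw [Real.sinc_of_ne_zero ht, div_pow]

lemma u_le_inv {t : ℝ} (ht : t ≠ 0) : u t ≤ 1 / t ^ 2 := by
  rw [u_of_ne ht]
  apply div_le_div_of_nonneg_right _ (by positivity)
  rw [← sq_abs]
  exact pow_le_one₀ (abs_nonneg _) (Real.abs_sin_le_one t)

lemma u_deriv {t : ℝ} (ht : 0 < t) :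
    HasDerivAt u (2 * (Real.sin t / t) * ((t * Real.cos t - Real.sin t) / t ^ 2)) t := by
  have h1 : HasDerivAt (fun s => (Real.sin s / s) ^ 2)
      (2 * (Real.sin t / t) * ((t * Real.cos t - Real.sin t) / t ^ 2)) t := by
    have := ((Real.hasDerivAt_sin t).div (hasDerivAt_id t) ht.ne').pow 2
    refine this.congr_deriv ?_
    rw [show (2 : ℕ) - 1 = 1 from rfl, pow_one]
    simp only [Pi.div_apply, id_eq]
    push_cast
    ring
  refine h1.congr_of_eventuallyEq ?_
  filter_upwards [eventually_gt_nhds ht] with s hs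
  rw [u_of_ne hs.ne', div_pow]

lemma u_deriv_le {t : ℝ} (ht : 0 < t) :
    |2 * (Real.sin t / t) * ((t * Real.cos t - Real.sin t) / t ^ 2)| ≤ 8 / (1 + t ^ 2) := by
  have hs : |Real.sin t / t| ≤ 1 := by
    rw [abs_div, abs_of_pos ht, div_le_one ht]
    exact Real.abs_sin_le_abs.trans (abs_of_pos ht).le
  rcases le_or_gt t 1 with h1 | h1
  · have h2 : |(t * Real.cos t - Real.sin t) / t ^ 2| ≤ 1 := by
      rw [abs_div, abs_of_pos (by positivity : 0 < t ^ 2), div_le_one (by positivity)]
      have e1 := Real.sin_gt_sub_cube ht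
      have e2 := Real.sin_lt ht
      have e3 := Real.one_sub_sq_div_two_le_cos (x := t)
      have e4 := Real.cos_le_one t
      have e5 : t ^ 3 ≤ t ^ 2 := by nlinarith [sq_nonneg t]
      rw [abs_le]
      constructor
      · nlinarith [mul_le_mul_of_nonneg_left e3 ht.le]
      · nlinarith [mul_le_mul_of_nonneg_left e4 ht.le]
    rw [abs_mul, abs_mul, abs_two]
    calc 2 * |Real.sin t / t| * |(t * Real.cos t - Real.sin t) / t ^ 2| ≤ 2 * 1 * 1 := by
          gcongr
      _ ≤ 8 / (1 + t ^ 2) := by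
          rw [le_div_iff₀ (by positivity)]
          nlinarith
  · have h2 : |Real.sin t / t| ≤ 1 / t := by
      rw [abs_div, abs_of_pos ht]
      exact div_le_div_of_nonneg_right (Real.abs_sin_le_one t) ht.le
    have h3 : |(t * Real.cos t - Real.sin t) / t ^ 2| ≤ 2 / t := by
      rw [abs_div, abs_of_pos (by positivity : 0 < t ^ 2), div_le_div_iff₀ (by positivity) ht]
      have e1 : |t * Real.cos t - Real.sin t| ≤ t + 1 := by
        refine (abs_sub _ _).trans ?_
        rw [abs_mul, abs_of_pos ht]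
        have := Real.abs_cos_le_one t
        have := Real.abs_sin_le_one t
        nlinarith
      nlinarith
    rw [abs_mul, abs_mul, abs_two]
    calc 2 * |Real.sin t / t| * |(t * Real.cos t - Real.sin t) / t ^ 2| ≤ 2 * (1 / t) * (2 / t) := by
          gcongr
      _ = 4 / t ^ 2 := by field_simp; ring
      _ ≤ 8 / (1 + t ^ 2) := by
          rw [div_le_div_iff₀ (by positivity) (by positivity)]
          nlinarith

lemma u_var {a b : ℝ} (ha : 0 ≤ a) (hab : a ≤ b) :
    |u a - u b| ≤ 8 * (Real.arctan b - Real.arctan a) := by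
  have hd : ∀ t, HasDerivAt (fun s => 8 * Real.arctan s) (8 * (1 / (1 + t ^ 2))) t := fun t =>
    (Real.hasDerivAt_arctan t).const_mul 8
  have m1 : MonotoneOn (fun s => 8 * Real.arctan s - u s) (Set.Ici 0) := by
    apply monotoneOn_of_deriv_nonneg (convex_Ici 0)
    · exact ((continuous_const.mul Real.continuous_arctan).sub u_cont).continuousOn
    · intro t ht
      rw [interior_Ici] at ht
      exact ((hd t).sub (u_deriv ht)).differentiableAt.differentiableWithinAt
    · intro t ht
      rw [interior_Ici] at ht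
      rw [((hd t).fun_sub (u_deriv ht)).deriv]
      have h1 := (abs_le.1 (u_deriv_le ht)).2
      have h2 : 8 * (1 / (1 + t ^ 2)) = 8 / (1 + t ^ 2) := by ring
      linarith
  have m2 : MonotoneOn (fun s => 8 * Real.arctan s + u s) (Set.Ici 0) := by
    apply monotoneOn_of_deriv_nonneg (convex_Ici 0)
    · exact ((continuous_const.mul Real.continuous_arctan).add u_cont).continuousOn
    · intro t ht
      rw [interior_Ici] at ht
      exact ((hd t).add (u_deriv ht)).differentiableAt.differentiableWithinAt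
    · intro t ht
      rw [interior_Ici] at ht
      rw [((hd t).fun_add (u_deriv ht)).deriv]
      have h1 := (abs_le.1 (u_deriv_le ht)).1
      have h2 : 8 * (1 / (1 + t ^ 2)) = 8 / (1 + t ^ 2) := by ring
      linarith
  have h1 := m1 ha (ha.trans hab) hab
  have h2 := m2 ha (ha.trans hab) hab
  simp only at h1 h2
  rw [abs_le]
  constructor <;> linarith

/-- Total variation of `u` along an arithmetic progression. -/
lemma u_total {τ : ℝ} (hτ : 0 < τ) (N : ℕ) :
    ∑ k ∈ Finset.range N, |u (k * τ) - u (((k + 1 : ℕ) : ℝ) * τ)| ≤ 4 * Real.pi := by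
  have h1 : ∀ k ∈ Finset.range N, |u (k * τ) - u (((k + 1 : ℕ) : ℝ) * τ)| ≤
      8 * Real.arctan (((k + 1 : ℕ) : ℝ) * τ) - 8 * Real.arctan ((k : ℝ) * τ) := by
    intro k _
    have := u_var (a := k * τ) (b := ((k + 1 : ℕ) : ℝ) * τ) (by positivity) (by
      push_cast
      nlinarith)
    linarith
  refine (Finset.sum_le_sum h1).trans ?_
  rw [Finset.sum_range_sub (fun k : ℕ => 8 * Real.arctan ((k : ℝ) * τ))]
  have h2 := Real.arctan_lt_pi_div_two ((N : ℝ) * τ)
  simp only [Nat.cast_zero, zero_mul, Real.arctan_zero, mul_zero, sub_zero]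
  linarith

lemma abel (a : ℕ → ℂ) (U : ℕ → ℂ) (N : ℕ) :
    ∑ k ∈ Finset.range (N + 1), a k * U k =
      (∑ k ∈ Finset.range (N + 1), a k) * U N +
        ∑ k ∈ Finset.range N, (∑ j ∈ Finset.range (k + 1), a j) * (U k - U (k + 1)) := by
  induction N with
  | zero => simp
  | succ N ih =>
    rw [Finset.sum_range_succ _ (N + 1), ih, Finset.sum_range_succ (fun k => a k) (N + 1),
      Finset.sum_range_succ (fun k => (∑ j ∈ Finset.range (k + 1), a j) * (U k - U (k + 1))) N]
    ring

/-- **Riemann's summability theorem.** -/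
theorem riem {a : ℕ → ℂ} (ha : Tendsto (fun N => ∑ k ∈ Finset.range (N + 1), a k) atTop (𝓝 0))
    (L : ℝ → ℂ) (hL : ∀ τ : ℝ, 0 < τ →
      Tendsto (fun N => ∑ k ∈ Finset.range (N + 1), a k * (u (k * τ) : ℂ)) atTop (𝓝 (L τ))) :
    ∀ ε : ℝ, 0 < ε → ∃ δ : ℝ, 0 < δ ∧ ∀ τ : ℝ, 0 < τ → τ < δ → ‖L τ‖ ≤ ε := by
  intro ε hε
  set s : ℕ → ℂ := fun N => ∑ k ∈ Finset.range (N + 1), a k with hs
  obtain ⟨B, hB⟩ : ∃ B : ℝ, ∀ n, ‖s n‖ ≤ B := by
    obtain ⟨B, hB⟩ := (ha.norm.bddAbove_range)
    exact ⟨B, fun n => hB ⟨n, rfl⟩⟩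
  have hB0 : 0 ≤ B := (norm_nonneg _).trans (hB 0)
  set ε' : ℝ := ε / 2 / (4 * Real.pi) with hε'
  have hpi := Real.pi_pos
  have hε'0 : 0 < ε' := by positivity
  obtain ⟨M, hM⟩ : ∃ M : ℕ, ∀ n, M ≤ n → ‖s n‖ ≤ ε' := by
    rw [Metric.tendsto_atTop] at ha
    obtain ⟨M, hM⟩ := ha ε' hε'0
    refine ⟨M, fun n hn => ?_⟩
    have := hM n hn
    rw [dist_zero_right] at this
    exact this.le
  -- the finite part
  let w : ℝ → ℝ := fun τ => B * ∑ k ∈ Finset.range M, |u (k * τ) - u (((k + 1 : ℕ) : ℝ) * τ)|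
  have hw : Continuous w := by
    apply continuous_const.mul
    apply continuous_finsetSum
    intro k _
    exact ((u_cont.comp (continuous_const.mul continuous_id)).sub
      (u_cont.comp (continuous_const.mul continuous_id))).abs
  have hw0 : w 0 = 0 := by simp [w]
  obtain ⟨δ, hδ, hδw⟩ := Metric.continuousAt_iff.1 hw.continuousAt (ε / 2) (by positivity)
  refine ⟨δ, hδ, fun τ hτ hτδ => ?_⟩
  have hwτ : w τ ≤ ε / 2 := by
    have := hδw (x := τ) (by rw [Real.dist_eq, sub_zero, abs_of_pos hτ]; exact hτδ)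
    rw [hw0, Real.dist_eq, sub_zero] at this
    exact (le_abs_self _).trans this.le
  have hbd : ∀ N, ‖∑ k ∈ Finset.range (N + 1), a k * (u (k * τ) : ℂ)‖ ≤ ‖s N‖ + ε := by
    intro N
    have h1 := abel a (fun k => (u (k * τ) : ℂ)) N
    rw [h1]
    refine (norm_add_le _ _).trans ?_
    apply add_le_add
    · rw [norm_mul, Complex.norm_real, Real.norm_eq_abs, abs_of_nonneg (u_nonneg _)]
      exact mul_le_of_le_one_right (norm_nonneg _) (u_le_one _)
    · refine (norm_sum_le _ _).trans ?_
      have h2 : ∀ k ∈ Finset.range N, ‖(∑ j ∈ Finset.range (k + 1), a j) *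
          ((u (k * τ) : ℂ) - (u (((k + 1 : ℕ) : ℝ) * τ) : ℂ))‖ ≤
          ε' * |u (k * τ) - u (((k + 1 : ℕ) : ℝ) * τ)| +
            (if k < M then B * |u (k * τ) - u (((k + 1 : ℕ) : ℝ) * τ)| else 0) := by
        intro k _
        rw [norm_mul, ← Complex.ofReal_sub, Complex.norm_real, Real.norm_eq_abs]
        by_cases hk : k < M
        · rw [if_pos hk]
          have h3 := mul_le_mul_of_nonneg_right (hB k)
            (abs_nonneg (u (k * τ) - u (((k + 1 : ℕ) : ℝ) * τ)))
          have h4 : 0 ≤ ε' * |u (k * τ) - u (((k + 1 : ℕ) : ℝ) * τ)| := by positivity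
          have h5 : ‖∑ j ∈ Finset.range (k + 1), a j‖ = ‖s k‖ := rfl
          rw [h5]
          linarith
        · rw [if_neg hk, add_zero]
          exact mul_le_mul_of_nonneg_right (hM k (by omega)) (abs_nonneg _)
      refine (Finset.sum_le_sum h2).trans ?_
      rw [Finset.sum_add_distrib, ← Finset.mul_sum, ← Finset.sum_filter]
      have h3 : ∑ k ∈ Finset.range N with k < M, B * |u (k * τ) - u (((k + 1 : ℕ) : ℝ) * τ)| ≤
          w τ := by
        simp only [w]
        rw [Finset.mul_sum]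
        apply Finset.sum_le_sum_of_subset_of_nonneg
        · intro k hk
          rw [Finset.mem_filter] at hk
          exact Finset.mem_range.2 hk.2
        · intro k _ _
          positivity
      have h4 : ε' * ∑ k ∈ Finset.range N, |u (k * τ) - u (((k + 1 : ℕ) : ℝ) * τ)| ≤ ε / 2 := by
        calc _ ≤ ε' * (4 * Real.pi) := mul_le_mul_of_nonneg_left (u_total hτ N) hε'0.le
          _ = ε / 2 := by rw [hε']; field_simp
      linarith
  have h1 : Tendsto (fun N => ‖s N‖ + ε) atTop (𝓝 (0 + ε)) := by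
    have := ha.norm
    rw [norm_zero] at this
    exact this.add_const ε
  rw [zero_add] at h1
  exact le_of_tendsto_of_tendsto (hL τ hτ).norm h1 (Eventually.of_forall hbd)

/-- **Schwarz's lemma.** -/
theorem schwarz {f : ℝ → ℝ} (hf : Continuous f) {x h : ℝ} (hh : 0 < h)
    (H : ∀ y ∈ Set.Ioo (x - h) (x + h), ∀ ε : ℝ, 0 < ε → ∃ δ : ℝ, 0 < δ ∧ ∀ t : ℝ, 0 < t → t < δ →
      |f (y + t) + f (y - t) - 2 * f y| ≤ ε * t ^ 2) :
    f (x + h) + f (x - h) - 2 * f x = 0 := by
  -- one sided statement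
  have key : ∀ g : ℝ → ℝ, Continuous g → (∀ y ∈ Set.Ioo (x - h) (x + h), ∀ ε : ℝ, 0 < ε →
      ∃ δ : ℝ, 0 < δ ∧ ∀ t : ℝ, 0 < t → t < δ → |g (y + t) + g (y - t) - 2 * g y| ≤ ε * t ^ 2) →
      0 ≤ g (x + h) + g (x - h) - 2 * g x := by
    intro g hg Hg
    by_contra hcon
    push Not at hcon
    set d : ℝ := g x - (g (x + h) + g (x - h)) / 2 with hd
    have hd0 : 0 < d := by linarith
    set e : ℝ := d / (2 * h ^ 2) with he
    have he0 : 0 < e := by positivity
    -- the auxiliary function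
    let G : ℝ → ℝ := fun y => g y - ((g (x + h) + g (x - h)) / 2 +
      (g (x + h) - g (x - h)) / (2 * h) * (y - x)) + e * ((y - x) ^ 2 - h ^ 2)
    have hGc : Continuous G := by
      simp only [G]
      fun_prop
    have hG1 : G (x + h) = 0 := by
      simp only [G]
      field_simp
      ring
    have hG2 : G (x - h) = 0 := by
      simp only [G]
      field_simp
      ring
    have hGx : 0 < G x := by
      simp only [G, sub_self, mul_zero, add_zero]
      have : e * (0 ^ 2 - h ^ 2) = -(d / 2) := by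
        rw [he]; field_simp
        norm_num
      rw [this, ← hd]
      linarith
    obtain ⟨y, hy, hmax⟩ := (isCompact_Icc (a := x - h) (b := x + h)).exists_isMaxOn
      ⟨x, by constructor <;> linarith⟩ hGc.continuousOn
    have hyx : G x ≤ G y := hmax (show x ∈ Set.Icc (x - h) (x + h) by constructor <;> linarith)
    have hy' : y ∈ Set.Ioo (x - h) (x + h) := by
      refine ⟨lt_of_le_of_ne hy.1 ?_, lt_of_le_of_ne hy.2 ?_⟩
      · intro hc
        rw [← hc, hG2] at hyx
        linarith
      · intro hc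
        rw [hc, hG1] at hyx
        linarith
    obtain ⟨δ, hδ, hδ'⟩ := Hg y hy' e he0
    set t : ℝ := min (δ / 2) (min (y - (x - h)) (x + h - y)) with ht
    have ht0 : 0 < t := by
      have h1 : 0 < y - (x - h) := by linarith [hy'.1]
      have h2 : 0 < x + h - y := by linarith [hy'.2]
      exact lt_min (by positivity) (lt_min h1 h2)
    have htδ : t < δ := lt_of_le_of_lt (min_le_left _ _) (by linarith)
    have ht1 : t ≤ y - (x - h) := (min_le_right _ _).trans (min_le_left _ _)
    have ht2 : t ≤ x + h - y := (min_le_right _ _).trans (min_le_right _ _)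
    have h1 : G (y + t) ≤ G y := hmax ⟨by linarith, by linarith⟩
    have h2 : G (y - t) ≤ G y := hmax ⟨by linarith, by linarith⟩
    have h3 : G (y + t) + G (y - t) - 2 * G y =
        (g (y + t) + g (y - t) - 2 * g y) + 2 * e * t ^ 2 := by
      simp only [G]
      ring
    have h4 := (abs_le.1 (hδ' t ht0 htδ)).1
    have h5 : 0 < e * t ^ 2 := by positivity
    nlinarith
  have h1 := key f hf H
  have h2 := key (fun y => -f y) hf.neg (by
    intro y hy ε hε
    obtain ⟨δ, hδ, hδ'⟩ := H y hy ε hε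
    refine ⟨δ, hδ, fun t ht htδ => ?_⟩
    have := hδ' t ht htδ
    rw [← abs_neg] at this
    convert! this using 2
    ring)
  linarith

end Pool.Agent.TH275.UQ
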