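import Mathlib
import Pool.Agent.TH275.UQ.Riem

set_option autoImplicit false

/-!
Uniqueness for trigonometric series converging to zero at all points `x` such that the fractional part
of `2 ^ β k * x` is larger than `1/2` for some `k` (Rajchman's theorem for sets of type H).
-/

namespace Pool.Agent.TH275.UQ

open Filter Topology MeasureTheory

/-- the coefficients of the twice integrated series -/
noncomputable def g (c : ℤ → ℂ) (n : ℤ) : ℂ := -c n / (4 * (Real.pi : ℂ) ^ 2 * (n : ℂ) ^ 2)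

lemma norm_g (c : ℤ → ℂ) {C : ℝ} (hC : ∀ n, ‖c n‖ ≤ C) (n : ℤ) :
    ‖g c n‖ ≤ C / (4 * Real.pi ^ 2) * (1 / (n : ℝ) ^ 2) := by
  unfold g
  rw [norm_div, norm_neg]
  have h1 : ‖(4 * (Real.pi : ℂ) ^ 2 * (n : ℂ) ^ 2)‖ = 4 * Real.pi ^ 2 * (n : ℝ) ^ 2 := by
    simp only [norm_mul, norm_pow, Complex.norm_real, Complex.norm_ofNat, Real.norm_eq_abs, sq_abs,
      Complex.norm_intCast]
  rw [h1, div_mul_div_comm, mul_one]
  exact div_le_div_of_nonneg_right (hC n) (by positivity)

lemma summable_g (c : ℤ → ℂ) {C : ℝ} (hC : ∀ n, ‖c n‖ ≤ C) : Summable fun n => ‖g c n‖ := by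
  refine Summable.of_nonneg_of_le (fun n => norm_nonneg _) (norm_g c hC) ?_
  exact ((Real.summable_one_div_int_pow (p := 2)).2 (by norm_num)).mul_left _

lemma summable_gex (c : ℤ → ℂ) {C : ℝ} (hC : ∀ n, ‖c n‖ ≤ C) (x : ℝ) :
    Summable fun n => g c n * ex n x := by
  refine Summable.of_norm ?_
  refine (summable_g c hC).congr fun n => ?_
  rw [norm_mul, ex_norm, mul_one]

/-- the twice integrated series -/
noncomputable def F (c : ℤ → ℂ) (x : ℝ) : ℂ := c 0 * (x : ℂ) ^ 2 / 2 + ∑' n : ℤ, g c n * ex n x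

lemma F_cont (c : ℤ → ℂ) {C : ℝ} (hC : ∀ n, ‖c n‖ ≤ C) : Continuous (F c) := by
  unfold F
  apply Continuous.add (by fun_prop)
  apply continuous_tsum (fun n => continuous_const.mul (ex_cont n)) (summable_g c hC)
  intro n x
  show ‖g c n * ex n x‖ ≤ _
  rw [norm_mul, ex_norm, mul_one]

lemma summable_u (c : ℤ → ℂ) {C : ℝ} (hC : ∀ n, ‖c n‖ ≤ C) {h : ℝ} (hh : h ≠ 0) (x : ℝ) :
    Summable fun n : ℤ => c n * (u (Real.pi * n * h) : ℂ) * ex n x := by
  have hC0 : 0 ≤ C := (norm_nonneg _).trans (hC 0)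
  have hpi := Real.pi_pos
  have h1 : Summable fun n : ℤ => C / (Real.pi ^ 2 * h ^ 2) * (1 / (n : ℝ) ^ 2) +
      (if n = 0 then C else 0) := by
    apply Summable.add
    · exact ((Real.summable_one_div_int_pow (p := 2)).2 (by norm_num)).mul_left _
    · exact (hasSum_ite_eq 0 C).summable
  refine Summable.of_norm_bounded h1 fun n => ?_
  rw [norm_mul, norm_mul, ex_norm, mul_one, Complex.norm_real, Real.norm_eq_abs,
    abs_of_nonneg (u_nonneg _)]
  by_cases hn : n = 0
  · subst hn
    simp only [Int.cast_zero, mul_zero, zero_mul, u_zero, mul_one, if_true]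
    have := hC 0
    norm_num
    linarith
  · rw [if_neg hn, add_zero]
    have hn' : (n : ℝ) ≠ 0 := by exact_mod_cast hn
    calc ‖c n‖ * u (Real.pi * n * h) ≤ C * (1 / (Real.pi * n * h) ^ 2) := by
          apply mul_le_mul (hC n) (u_le_inv (by positivity)) (u_nonneg _) hC0
      _ = _ := by field_simp

lemma second_diff (c : ℤ → ℂ) {C : ℝ} (hC : ∀ n, ‖c n‖ ≤ C) {h : ℝ} (hh : h ≠ 0) (x : ℝ) :
    F c (x + h) + F c (x - h) - 2 * F c x =
      (h : ℂ) ^ 2 * ∑' n : ℤ, c n * (u (Real.pi * n * h) : ℂ) * ex n x := by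
  have s1 := summable_gex c hC (x + h)
  have s2 := summable_gex c hC (x - h)
  have s3 := summable_gex c hC x
  have hterm : ∀ n : ℤ, (h : ℂ) ^ 2 * (c n * (u (Real.pi * n * h) : ℂ) * ex n x) =
      (g c n * ex n (x + h) + g c n * ex n (x - h) - 2 * (g c n * ex n x)) +
        (if n = 0 then (h : ℂ) ^ 2 * c 0 else 0) := by
    intro n
    by_cases hn : n = 0
    · subst hn
      simp [ex_zero, u_zero, g]
    · rw [if_neg hn, add_zero]
      have hn' : (n : ℝ) ≠ 0 := by exact_mod_cast hn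
      have hn'' : (n : ℂ) ≠ 0 := by exact_mod_cast hn
      have hpi : (Real.pi : ℂ) ≠ 0 := by exact_mod_cast Real.pi_ne_zero
      have hh' : (h : ℂ) ≠ 0 := by exact_mod_cast hh
      have e1 : ex n (x + h) = ex n x * ex n h := ex_add_right n x h
      have e2 : ex n (x - h) = ex n x * starRingEnd ℂ (ex n h) := by
        rw [sub_eq_add_neg, ex_add_right, ex_neg_right]
      have e3 : ex n h + starRingEnd ℂ (ex n h) = 2 - 4 * (Real.sin (Real.pi * n * h) : ℂ) ^ 2 := by
        rw [Complex.add_conj]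
        have : (ex n h).re = Real.cos (2 * (Real.pi * n * h)) := by
          rw [ex_eq, Complex.exp_ofReal_mul_I_re]
          congr 1
          ring
        rw [this, Real.cos_two_mul]
        have := Real.sin_sq_add_cos_sq (Real.pi * n * h)
        have e4 : Real.cos (Real.pi * n * h) ^ 2 = 1 - Real.sin (Real.pi * n * h) ^ 2 := by linarith
        rw [e4]
        push_cast
        ring
      have e5 : (u (Real.pi * n * h) : ℂ) =
          (Real.sin (Real.pi * n * h) : ℂ) ^ 2 / ((Real.pi : ℂ) * n * h) ^ 2 := by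
        rw [u_of_ne (by
          have := Real.pi_ne_zero
          positivity)]
        push_cast
        rfl
      have e6 : g c n * ex n (x + h) + g c n * ex n (x - h) - 2 * (g c n * ex n x) =
          g c n * ex n x * (ex n h + starRingEnd ℂ (ex n h) - 2) := by
        rw [e1, e2]
        ring
      rw [e6, e3, e5, g]
      field_simp
      ring
  rw [← tsum_mul_left]
  simp_rw [hterm]
  rw [Summable.tsum_add ((s1.add s2).sub (s3.mul_left 2)) (hasSum_ite_eq 0 _).summable,
    Summable.tsum_sub (s1.add s2) (s3.mul_left 2), Summable.tsum_add s1 s2, tsum_mul_left,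
    tsum_ite_eq]
  unfold F
  push_cast
  ring

/-- symmetric partial sums of a summable family -/
lemma tendsto_Icc {w : ℤ → ℂ} (hw : Summable w) :
    Tendsto (fun N : ℕ => ∑ n ∈ Finset.Icc (-(N : ℤ)) N, w n) atTop (𝓝 (∑' n, w n)) := by
  have h1 := hw.hasSum
  refine Tendsto.comp (f := fun N : ℕ => Finset.Icc (-(N : ℤ)) N) h1 ?_
  apply tendsto_atTop_finset_of_monotone
  · intro a b hab
    apply Finset.Icc_subset_Icc
    · have : (a : ℤ) ≤ b := by exact_mod_cast hab
      omega
    · exact_mod_cast hab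
  · intro x
    refine ⟨x.natAbs, ?_⟩
    rw [Finset.mem_Icc]
    omega

/-- The second difference is `o(h²)` at the points where the series converges to zero. -/
lemma second_diff_small (c : ℤ → ℂ) {C : ℝ} (hC : ∀ n, ‖c n‖ ≤ C) {x : ℝ}
    (hx : Tendsto (fun N : ℕ => S c N x) atTop (𝓝 0)) :
    ∀ ε : ℝ, 0 < ε → ∃ δ : ℝ, 0 < δ ∧ ∀ t : ℝ, 0 < t → t < δ →
      ‖F c (x + t) + F c (x - t) - 2 * F c x‖ ≤ ε * t ^ 2 := by
  intro ε hε
  have hpi := Real.pi_pos
  have h1 : Tendsto (fun N => ∑ k ∈ Finset.range (N + 1), sym (fun n => c n * ex n x) k)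
      atTop (𝓝 0) := by
    refine hx.congr fun N => ?_
    rw [S_eq]
  obtain ⟨δ, hδ, hL⟩ := riem h1 (fun τ => ∑' n : ℤ, c n * (u (Real.pi * n * (τ / Real.pi)) : ℂ) * ex n x)
    (by
      intro τ hτ
      have hτ' : τ / Real.pi ≠ 0 := by positivity
      refine (tendsto_Icc (summable_u c hC hτ' x)).congr fun N => ?_
      rw [sum_sym]
      apply Finset.sum_congr rfl
      intro k _
      have hu : ∀ n : ℤ, u (Real.pi * n * (τ / Real.pi)) = u (n * τ) := by
        intro n
        congr 1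
        field_simp
      simp only [hu]
      cases k with
      | zero => simp [sym, u_zero]
      | succ k =>
        simp only [sym]
        have h2 : u (((-((k : ℤ) + 1) : ℤ) : ℝ) * τ) = u (((k + 1 : ℕ) : ℝ) * τ) := by
          rw [← u_neg]
          congr 1
          push_cast
          ring
        have h3 : u ((((k : ℤ) + 1 : ℤ) : ℝ) * τ) = u (((k + 1 : ℕ) : ℝ) * τ) := by
          push_cast
          rfl
        rw [h2, h3]
        ring) ε hε
  refine ⟨δ / Real.pi, by positivity, fun t ht htδ => ?_⟩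
  rw [second_diff c hC ht.ne', norm_mul, norm_pow, Complex.norm_real, Real.norm_eq_abs, sq_abs,
    mul_comm]
  have h2 := hL (Real.pi * t) (by positivity) (by
    rw [lt_div_iff₀ hpi] at htδ
    linarith)
  have h3 : Real.pi * t / Real.pi = t := by field_simp
  simp only [h3] at h2
  exact mul_le_mul_of_nonneg_right h2 (by positivity)

/-- The second difference vanishes. -/
lemma second_diff_zero (c : ℤ → ℂ) {C : ℝ} (hC : ∀ n, ‖c n‖ ≤ C) {x h : ℝ} (hh : 0 < h)
    (hx : ∀ y ∈ Set.Ioo (x - h) (x + h), Tendsto (fun N : ℕ => S c N y) atTop (𝓝 0)) :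
    ∑' n : ℤ, c n * (u (Real.pi * n * h) : ℂ) * ex n x = 0 := by
  have hFc := F_cont c hC
  have hre := schwarz (f := fun y => (F c y).re) (Complex.continuous_re.comp hFc) hh (by
    intro y hy ε hε
    obtain ⟨δ, hδ, h1⟩ := second_diff_small c hC (hx y hy) ε hε
    refine ⟨δ, hδ, fun t ht htδ => ?_⟩
    have h2 := (Complex.abs_re_le_norm _).trans (h1 t ht htδ)
    simpa using h2)
  have him := schwarz (f := fun y => (F c y).im) (Complex.continuous_im.comp hFc) hh (by
    intro y hy ε hε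
    obtain ⟨δ, hδ, h1⟩ := second_diff_small c hC (hx y hy) ε hε
    refine ⟨δ, hδ, fun t ht htδ => ?_⟩
    have h2 := (Complex.abs_im_le_norm _).trans (h1 t ht htδ)
    simpa using h2)
  have h0 : F c (x + h) + F c (x - h) - 2 * F c x = 0 := by
    apply Complex.ext
    · simpa using hre
    · simpa using him
  rw [second_diff c hC hh.ne'] at h0
  have hh' : (h : ℂ) ^ 2 ≠ 0 := by
    have : (h : ℂ) ≠ 0 := by exact_mod_cast hh.ne'
    positivity
  exact (mul_eq_zero.1 h0).resolve_left hh'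

lemma ex_int (m : ℤ) (j : ℤ) : ex m (j : ℝ) = 1 := by
  unfold ex
  rw [Complex.exp_eq_one_iff]
  exact ⟨m * j, by push_cast; ring⟩

/-- sums over the cyclic group -/
lemma geom (m : ℤ) (q : ℕ) (hq : 0 < q) (y : ℝ) :
    ∑ j ∈ Finset.range q, ex m ((y + j) / q) = if (q : ℤ) ∣ m then (q : ℂ) * ex m (y / q) else 0 := by
  have hqr : (q : ℝ) ≠ 0 := by exact_mod_cast hq.ne'
  set z : ℂ := ex m (1 / q) with hz
  have hpow : ∀ j : ℕ, ex m ((j : ℝ) / q) = z ^ j := by
    intro j
    induction j with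
    | zero => simp [ex_zero_right]
    | succ j ih =>
      rw [pow_succ, ← ih, hz, ← ex_add_right]
      congr 1
      push_cast
      ring
  have h1 : ∀ j ∈ Finset.range q, ex m ((y + j) / q) = ex m (y / q) * z ^ j := by
    intro j _
    rw [← hpow, ← ex_add_right, add_div]
  rw [Finset.sum_congr rfl h1, ← Finset.mul_sum]
  have hzq : z ^ q = 1 := by
    rw [← hpow, div_self hqr]
    have := ex_int m 1
    simpa using this
  by_cases hd : (q : ℤ) ∣ m
  · rw [if_pos hd]
    obtain ⟨r, rfl⟩ := hd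
    have hz1 : z = 1 := by
      have h2 := ex_int r 1
      rw [hz]
      rw [← h2]
      unfold ex
      congr 1
      have : (q : ℂ) ≠ 0 := by exact_mod_cast hq.ne'
      push_cast
      field_simp
    rw [hz1]
    simp
    ring
  · rw [if_neg hd]
    have hz1 : z ≠ 1 := by
      intro hc
      apply hd
      rw [hz, ex, Complex.exp_eq_one_iff] at hc
      obtain ⟨r, hr⟩ := hc
      refine ⟨r, ?_⟩
      have h2 : (2 * (Real.pi : ℂ) * Complex.I) ≠ 0 := by
        simp [Real.pi_ne_zero, Complex.I_ne_zero]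
      have hqc : (q : ℂ) ≠ 0 := by exact_mod_cast hq.ne'
      have h3 : (m : ℂ) = q * r := by
        have h4 : 2 * (Real.pi : ℂ) * Complex.I * (m : ℂ) = 2 * (Real.pi : ℂ) * Complex.I * (q * r) := by
          push_cast at hr
          field_simp at hr
          linear_combination (2 * (Real.pi : ℂ) * Complex.I) * hr
        exact mul_left_cancel₀ h2 h4
      exact_mod_cast h3
    have h2 : (z - 1) * ∑ j ∈ Finset.range q, z ^ j = 0 := by
      rw [mul_comm, geom_sum_mul, hzq, sub_self]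
    have h3 := (mul_eq_zero.1 h2).resolve_left (sub_ne_zero.2 hz1)
    rw [h3, mul_zero]

/-- The identity for the coefficients along an arithmetic progression. -/
lemma progression (c : ℤ → ℂ) {C : ℝ} (hC : ∀ n, ‖c n‖ ≤ C) (q : ℕ) (hq : 0 < q)
    (H : ∀ x : ℝ, 1 / 2 < Int.fract ((q : ℝ) * x) → Tendsto (fun N : ℕ => S c N x) atTop (𝓝 0))
    (l : ℤ) :
    ∑' m : ℤ, c (l + q * m) * (u (Real.pi * ((l : ℝ) / q + m) / 8) : ℂ) * ex m (3 / 4) = 0 := by
  have hqr : (0 : ℝ) < q := by exact_mod_cast hq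
  set h : ℝ := 1 / (8 * q) with hh
  have hh0 : 0 < h := by positivity
  have hz : ∀ j ∈ Finset.range q, ∑' n : ℤ, c n * (u (Real.pi * n * h) : ℂ) * ex n ((3 / 4 + j) / q) = 0 := by
    intro j _
    apply second_diff_zero c hC hh0
    intro y hy
    apply H
    have e1 : (q : ℝ) * ((3 / 4 + j) / q) = 3 / 4 + j := by field_simp
    have e2 : (q : ℝ) * h = 1 / 8 := by rw [hh]; field_simp
    have h1 : (5 / 8 : ℝ) + j < q * y := by
      have := mul_lt_mul_of_pos_left hy.1 hqr
      rw [mul_sub, e1, e2] at this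
      linarith
    have h2 : (q : ℝ) * y < 7 / 8 + j := by
      have := mul_lt_mul_of_pos_left hy.2 hqr
      rw [mul_add, e1, e2] at this
      linarith
    have h3 : Int.fract ((q : ℝ) * y) = q * y - j := by
      rw [Int.fract_eq_iff]
      refine ⟨by linarith, by linarith, (j : ℤ), by push_cast; ring⟩
    rw [h3]
    linarith
  have hsum : ∑' n : ℤ, c n * (u (Real.pi * n * h) : ℂ) *
      (if (q : ℤ) ∣ (n - l) then (q : ℂ) * ex (n - l) (3 / 4 / q) else 0) = 0 := by
    have h1 : ∑ j ∈ Finset.range q, ex (-l) ((3 / 4 + j) / q) *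
        ∑' n : ℤ, c n * (u (Real.pi * n * h) : ℂ) * ex n ((3 / 4 + j) / q) = 0 := by
      apply Finset.sum_eq_zero
      intro j hj
      rw [hz j hj, mul_zero]
    refine Eq.trans ?_ h1
    simp_rw [← tsum_mul_left]
    rw [← Summable.tsum_finsetSum fun j _ => (summable_u c hC hh0.ne' _).mul_left _]
    congr 1
    ext n
    rw [← geom (n - l) q hq (3 / 4), Finset.mul_sum]
    apply Finset.sum_congr rfl
    intro j _
    rw [sub_eq_add_neg, ex_add_left]
    ring
  have hinj : Function.Injective fun m : ℤ => l + q * m := by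
    intro a b hab
    have hab' : l + q * a = l + q * b := hab
    have h1 : (q : ℤ) * a = q * b := by linarith
    exact mul_left_cancel₀ (by exact_mod_cast hq.ne') h1
  have hre := hinj.tsum_eq (f := fun n : ℤ => c n * (u (Real.pi * n * h) : ℂ) *
      (if (q : ℤ) ∣ (n - l) then (q : ℂ) * ex (n - l) (3 / 4 / q) else 0)) (by
    intro n hn
    rw [Function.mem_support] at hn
    by_cases hd : (q : ℤ) ∣ (n - l)
    · obtain ⟨m, hm⟩ := hd
      exact ⟨m, by show l + q * m = n; linarith⟩
    · exfalso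
      apply hn
      simp only [if_neg hd, mul_zero])
  rw [hsum] at hre
  have hterm : ∀ m : ℤ, c (l + q * m) * (u (Real.pi * ((l + q * m : ℤ) : ℝ) * h) : ℂ) *
      (if (q : ℤ) ∣ (l + q * m - l) then (q : ℂ) * ex (l + q * m - l) (3 / 4 / q) else 0) =
      q * (c (l + q * m) * (u (Real.pi * ((l : ℝ) / q + m) / 8) : ℂ) * ex m (3 / 4)) := by
    intro m
    have e1 : l + q * m - l = q * m := by ring
    rw [e1, if_pos (dvd_mul_right _ _)]
    have e2 : ex (q * m) (3 / 4 / q) = ex m (3 / 4) := by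
      rw [ex_eq, ex_eq]
      congr 3
      push_cast
      field_simp
    have e3 : Real.pi * ((l + q * m : ℤ) : ℝ) * h = Real.pi * ((l : ℝ) / q + m) / 8 := by
      rw [hh]
      push_cast
      field_simp
    rw [e2, e3]
    ring
  simp_rw [hterm] at hre
  rw [tsum_mul_left] at hre
  have hqc : (q : ℂ) ≠ 0 := by exact_mod_cast hq.ne'
  exact (mul_eq_zero.1 hre).resolve_left hqc

/-- **Rajchman's theorem for sets of type H** (for the frequencies `2 ^ β k` and the arc `(1/2, 1)`). -/
theorem uniq (c : ℤ → ℂ) (β : ℕ → ℕ) (hβ : Tendsto β atTop atTop)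
    (H : ∀ (k : ℕ) (x : ℝ), 1 / 2 < Int.fract ((2 : ℝ) ^ β k * x) →
      Tendsto (fun N : ℕ => S c N x) atTop (𝓝 0)) (l : ℤ) : c l = 0 := by
  -- the coefficients are small
  have hsmall : ∀ ε : ℝ, 0 < ε → ∃ M : ℕ, ∀ n : ℤ, M ≤ n.natAbs → ‖c n‖ ≤ ε := by
    have hq : (0 : ℝ) < (2 : ℝ) ^ β 0 := by positivity
    apply coeff_tendsto c (1 / 2 / (2 : ℝ) ^ β 0) (1 / (2 : ℝ) ^ β 0)
      (div_lt_div_of_pos_right (by norm_num) hq)
    intro x hx
    apply H 0
    have h1 : 1 / 2 < (2 : ℝ) ^ β 0 * x := by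
      have := (div_lt_iff₀ hq).1 hx.1
      linarith
    have h2 : (2 : ℝ) ^ β 0 * x < 1 := by
      have := (lt_div_iff₀ hq).1 hx.2
      linarith
    rw [Int.fract_eq_self.2 ⟨by linarith, h2⟩]
    exact h1
  obtain ⟨C, hC⟩ : ∃ C : ℝ, ∀ n, ‖c n‖ ≤ C := by
    obtain ⟨M, hM⟩ := hsmall 1 one_pos
    refine ⟨1 + ∑ n ∈ Finset.Icc (-(M : ℤ)) M, ‖c n‖, fun n => ?_⟩
    have h0 : 0 ≤ ∑ n ∈ Finset.Icc (-(M : ℤ)) M, ‖c n‖ := Finset.sum_nonneg fun _ _ => norm_nonneg _
    by_cases hn : M ≤ n.natAbs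
    · have := hM n hn
      linarith
    · have h1 : n ∈ Finset.Icc (-(M : ℤ)) M := by
        rw [Finset.mem_Icc]
        omega
      have := Finset.single_le_sum (f := fun n => ‖c n‖) (fun _ _ => norm_nonneg _) h1
      linarith
  have hC0 : 0 ≤ C := (norm_nonneg _).trans (hC 0)
  -- powers of two
  have hpow : Tendsto (fun k => ((2 ^ β k : ℕ) : ℝ)) atTop atTop := by
    have h1 : Tendsto (fun k => (2 ^ β k : ℕ)) atTop atTop :=
      (tendsto_pow_atTop_atTop_of_one_lt (by norm_num : 1 < 2)).comp hβ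
    exact tendsto_natCast_atTop_atTop.comp h1
  have hprog : ∀ k, ∑' m : ℤ, c (l + (2 ^ β k : ℕ) * m) *
      (u (Real.pi * ((l : ℝ) / (2 ^ β k : ℕ) + m) / 8) : ℂ) * ex m (3 / 4) = 0 := by
    intro k
    apply progression c hC (2 ^ β k) (by positivity)
    intro x hx
    apply H k x
    push_cast at hx
    exact hx
  -- dominated convergence
  have hlim : Tendsto (fun k => ∑' m : ℤ, c (l + (2 ^ β k : ℕ) * m) *
      (u (Real.pi * ((l : ℝ) / (2 ^ β k : ℕ) + m) / 8) : ℂ) * ex m (3 / 4)) atTop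
      (𝓝 (∑' m : ℤ, if m = 0 then c l else 0)) := by
    have hsb : Summable fun m : ℤ => C * 256 * (1 / (m : ℝ) ^ 2) + (if m = 0 then C else 0) := by
      apply Summable.add
      · exact ((Real.summable_one_div_int_pow (p := 2)).2 (by norm_num)).mul_left _
      · exact (hasSum_ite_eq 0 C).summable
    refine tendsto_tsum_of_dominated_convergence hsb ?_ ?_
    · intro m
      by_cases hm : m = 0
      · subst hm
        simp only [mul_zero, add_zero, Int.cast_zero, ex_zero, mul_one, if_true]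
        have h1 : Tendsto (fun k => Real.pi * ((l : ℝ) / (2 ^ β k : ℕ)) / 8) atTop (𝓝 0) := by
          have h2 : Tendsto (fun k => (l : ℝ) / ((2 ^ β k : ℕ) : ℝ)) atTop (𝓝 0) :=
            hpow.const_div_atTop (l : ℝ)
          have h3 := (h2.const_mul Real.pi).div_const 8
          simpa using h3
        have h2 := (u_cont.tendsto 0).comp h1
        rw [u_zero] at h2
        have h3 : Tendsto (fun k => (u (Real.pi * ((l : ℝ) / (2 ^ β k : ℕ)) / 8) : ℂ)) atTop
            (𝓝 ((1 : ℝ) : ℂ)) := (Complex.continuous_ofReal.tendsto 1).comp h2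
        have h4 := h3.const_mul (c l)
        simpa using h4
      · rw [if_neg hm]
        rw [Metric.tendsto_atTop]
        intro ε hε
        obtain ⟨M, hM⟩ := hsmall (ε / 2) (by positivity)
        have h1 : ∀ᶠ k in atTop, M + l.natAbs ≤ 2 ^ β k := by
          have h1 : Tendsto (fun k => (2 ^ β k : ℕ)) atTop atTop :=
            (tendsto_pow_atTop_atTop_of_one_lt (by norm_num : 1 < 2)).comp hβ
          exact h1.eventually_ge_atTop _
        obtain ⟨K, hK⟩ := eventually_atTop.1 h1
        refine ⟨K, fun k hk => ?_⟩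
        have h2 := hK k hk
        have h3 : M ≤ (l + (2 ^ β k : ℕ) * m).natAbs := by
          have h4 : (2 ^ β k : ℕ) ≤ ((2 ^ β k : ℕ) * m).natAbs := by
            rw [Int.natAbs_mul, Int.natAbs_natCast]
            exact Nat.le_mul_of_pos_right _ (Int.natAbs_pos.2 hm)
          omega
        rw [dist_zero_right, norm_mul, norm_mul, ex_norm, mul_one, Complex.norm_real,
          Real.norm_eq_abs, abs_of_nonneg (u_nonneg _)]
        calc _ ≤ ‖c (l + (2 ^ β k : ℕ) * m)‖ * 1 :=
              mul_le_mul_of_nonneg_left (u_le_one _) (norm_nonneg _)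
          _ ≤ ε / 2 := by rw [mul_one]; exact hM _ h3
          _ < ε := by linarith
    · have h1 : ∀ᶠ k in atTop, 2 * |(l : ℝ)| ≤ ((2 ^ β k : ℕ) : ℝ) := hpow.eventually_ge_atTop _
      filter_upwards [h1] with k hk m
      rw [norm_mul, norm_mul, ex_norm, mul_one, Complex.norm_real,
        Real.norm_eq_abs, abs_of_nonneg (u_nonneg _)]
      by_cases hm : m = 0
      · rw [if_pos hm]
        have h2 : 0 ≤ C * 256 * (1 / (m : ℝ) ^ 2) := by positivity
        have h3 : ‖c (l + (2 ^ β k : ℕ) * m)‖ * u (Real.pi * ((l : ℝ) / (2 ^ β k : ℕ) + m) / 8) ≤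
            C * 1 := mul_le_mul (hC _) (u_le_one _) (u_nonneg _) hC0
        linarith
      · rw [if_neg hm, add_zero]
        have hq : (0 : ℝ) < ((2 ^ β k : ℕ) : ℝ) := by positivity
        have hm1 : (1 : ℝ) ≤ |(m : ℝ)| := by exact_mod_cast Int.one_le_abs hm
        have h2 : |(l : ℝ) / (2 ^ β k : ℕ)| ≤ 1 / 2 := by
          rw [abs_div, abs_of_pos hq, div_le_iff₀ hq]
          linarith
        have h3 : |(m : ℝ)| / 2 ≤ |(l : ℝ) / (2 ^ β k : ℕ) + m| := by
          have h4 : |(m : ℝ)| ≤ |(l : ℝ) / (2 ^ β k : ℕ) + m| + |(l : ℝ) / (2 ^ β k : ℕ)| := by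
            have := abs_sub ((l : ℝ) / (2 ^ β k : ℕ) + m) ((l : ℝ) / (2 ^ β k : ℕ))
            rwa [add_sub_cancel_left] at this
          linarith
        set t : ℝ := (l : ℝ) / (2 ^ β k : ℕ) + m with ht
        have ht0 : 0 < |t| := by linarith
        have htne : t ≠ 0 := abs_pos.1 ht0
        have hpi := Real.pi_gt_three
        have h5 : u (Real.pi * t / 8) ≤ 256 * (1 / (m : ℝ) ^ 2) := by
          refine (u_le_inv (by positivity)).trans ?_
          have h6 : (m : ℝ) ^ 2 / 4 ≤ t ^ 2 := by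
            rw [← sq_abs t, ← sq_abs (m : ℝ)]
            nlinarith
          have hm2 : 0 < (m : ℝ) ^ 2 := by
            rw [← sq_abs]
            positivity
          rw [mul_one_div, div_le_div_iff₀ (by positivity) hm2]
          have h7 : (Real.pi * t / 8) ^ 2 = Real.pi ^ 2 * t ^ 2 / 64 := by ring
          rw [h7]
          have h8 : 9 * t ^ 2 ≤ Real.pi ^ 2 * t ^ 2 := by
            apply mul_le_mul_of_nonneg_right _ (sq_nonneg t)
            nlinarith
          linarith
        calc _ ≤ C * (256 * (1 / (m : ℝ) ^ 2)) := mul_le_mul (hC _) h5 (u_nonneg _) hC0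
          _ = _ := by ring
  simp_rw [hprog] at hlim
  have h1 := tendsto_nhds_unique hlim tendsto_const_nhds
  rw [tsum_ite_eq] at h1
  exact h1

end Pool.Agent.TH275.UQ
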