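import Mathlib
import Pool.Agent.TH275.UQ.Basic

set_option autoImplicit false

/-!
The random point `X = ∑_{i ∉ B} ω_i 2^{-(i+1)}` with fair coins `ω_i`: Fourier coefficients and the
measure of small sets.
-/

namespace Pool.Agent.TH275.UQ

open Filter Topology MeasureTheory ProbabilityTheory
open scoped ENNReal

/-- the fair coin -/
noncomputable def coin : Measure Bool :=
  (2⁻¹ : ℝ≥0∞) • Measure.dirac true + (2⁻¹ : ℝ≥0∞) • Measure.dirac false

instance : IsProbabilityMeasure coin := by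
  constructor
  simp [coin, ENNReal.inv_two_add_inv_two]

lemma coin_single (b : Bool) : coin {b} = 2⁻¹ := by
  cases b <;> simp [coin]

lemma coin_integral (f : Bool → ℂ) : ∫ b, f b ∂coin = (f false + f true) / 2 := by
  have h1 : ∀ b, coin.real {b} = 1 / 2 := by
    intro b
    rw [Measure.real, coin_single]
    simp
  rw [integral_fintype (hf := Integrable.of_finite)]
  simp only [Fintype.sum_bool, h1, Complex.real_smul]
  push_cast
  ring

/-- the probability measure on coin sequences -/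
noncomputable def P : Measure (ℕ → Bool) := Measure.infinitePi fun _ => coin

instance : IsProbabilityMeasure P := by
  unfold P
  infer_instance

/-- real value of a bit -/
def bit (b : Bool) : ℝ := if b then 1 else 0

lemma bit_nonneg (b : Bool) : 0 ≤ bit b := by cases b <;> simp [bit]

lemma bit_le (b : Bool) : bit b ≤ 1 := by cases b <;> simp [bit]

variable (B : Set ℕ)

open Classical in
/-- the weight of the digit `i` -/
noncomputable def wt (i : ℕ) : ℝ := if i ∈ B then 0 else (1 / 2) ^ (i + 1)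

lemma wt_nonneg (i : ℕ) : 0 ≤ wt B i := by
  unfold wt
  split_ifs <;> positivity

lemma wt_le (i : ℕ) : wt B i ≤ (1 / 2) ^ (i + 1) := by
  unfold wt
  split_ifs
  · positivity
  · exact le_rfl

noncomputable def X (ω : ℕ → Bool) : ℝ := ∑' i, wt B i * bit (ω i)

noncomputable def Xn (n : ℕ) (ω : ℕ → Bool) : ℝ := ∑ i ∈ Finset.range n, wt B i * bit (ω i)

lemma term_nonneg (ω : ℕ → Bool) (i : ℕ) : 0 ≤ wt B i * bit (ω i) :=
  mul_nonneg (wt_nonneg B i) (bit_nonneg _)

lemma term_le (ω : ℕ → Bool) (i : ℕ) : wt B i * bit (ω i) ≤ (1 / 2) ^ (i + 1) := by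
  calc wt B i * bit (ω i) ≤ (1 / 2) ^ (i + 1) * 1 :=
        mul_le_mul (wt_le B i) (bit_le _) (bit_nonneg _) (by positivity)
    _ = _ := mul_one _

lemma hasSum_half (n : ℕ) : HasSum (fun i : ℕ => (1 / 2 : ℝ) ^ (i + n + 1)) ((1 / 2) ^ n) := by
  have h1 := hasSum_geometric_two.mul_left ((1 / 2 : ℝ) ^ (n + 1))
  have h2 : (1 / 2 : ℝ) ^ (n + 1) * 2 = (1 / 2) ^ n := by
    rw [pow_succ]; ring
  rw [h2] at h1
  refine h1.congr_fun ?_ |> fun h => h
  intro i
  rw [← pow_add]
  congr 1
  ring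

lemma summable_term (ω : ℕ → Bool) : Summable fun i => wt B i * bit (ω i) := by
  refine Summable.of_nonneg_of_le (term_nonneg B ω) (term_le B ω) ?_
  exact (hasSum_half 0).summable

lemma Xn_le (n : ℕ) (ω : ℕ → Bool) : Xn B n ω ≤ X B ω :=
  (summable_term B ω).sum_le_tsum _ fun i _ => term_nonneg B ω i

lemma X_le (n : ℕ) (ω : ℕ → Bool) : X B ω ≤ Xn B n ω + (1 / 2) ^ n := by
  unfold X Xn
  rw [← (summable_term B ω).sum_add_tsum_nat_add n]
  apply add_le_add le_rfl
  have h1 : Summable fun i => wt B (i + n) * bit (ω (i + n)) :=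
    (summable_nat_add_iff n).2 (summable_term B ω)
  exact hasSum_le (fun i => term_le B ω (i + n)) h1.hasSum (hasSum_half n)

lemma Xn_tendsto (ω : ℕ → Bool) : Tendsto (fun n => Xn B n ω) atTop (𝓝 (X B ω)) :=
  (summable_term B ω).hasSum.tendsto_sum_nat

lemma X_cont : Continuous (X B) := by
  unfold X
  refine continuous_tsum (u := fun i => (1 / 2 : ℝ) ^ (i + 1)) (fun i => ?_) ?_ ?_
  · have h1 : Continuous fun b : Bool => bit b := continuous_of_discreteTopology
    exact continuous_const.mul (h1.comp (continuous_apply i))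
  · exact (hasSum_half 0).summable
  · intro i ω
    rw [Real.norm_eq_abs, abs_of_nonneg (term_nonneg B ω i)]
    exact term_le B ω i

lemma Xn_cont (n : ℕ) : Continuous (Xn B n) := by
  unfold Xn
  refine continuous_finsetSum _ fun i _ => ?_
  have h1 : Continuous fun b : Bool => bit b := continuous_of_discreteTopology
  exact continuous_const.mul (h1.comp (continuous_apply i))

/-! ### Fourier coefficients -/

lemma ex_sum {ι : Type*} (s : Finset ι) (m : ℤ) (f : ι → ℝ) : ex m (∑ i ∈ s, f i) = ∏ i ∈ s, ex m (f i) := by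
  classical
  induction s using Finset.induction_on with
  | empty => simp [ex_zero_right]
  | insert a s ha ih => rw [Finset.sum_insert ha, Finset.prod_insert ha, ex_add_right, ih]

lemma fourier_Xn (m : ℤ) (n : ℕ) :
    ∫ ω, ex m (Xn B n ω) ∂P = ∏ i ∈ Finset.range n, (1 + ex m (wt B i)) / 2 := by
  have hind : iIndepFun (fun (i : ℕ) (ω : ℕ → Bool) => ω i) P :=
    iIndepFun_infinitePi (P := fun _ : ℕ => coin) (X := fun _ b => b) (fun _ => measurable_id)
  have hind' := hind.precomp (g := fun i : Fin n => (i : ℕ)) Fin.val_injective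
  have h1 := hind'.integral_fun_prod_comp (f := fun (i : Fin n) (b : Bool) =>
    ex m (wt B i * bit b)) (fun i => (measurable_pi_apply _).aemeasurable)
    (fun i => (measurable_of_finite _).aestronglyMeasurable)
  have h2 : ∀ ω : ℕ → Bool, ex m (Xn B n ω) = ∏ i : Fin n, ex m (wt B i * bit (ω i)) := by
    intro ω
    unfold Xn
    rw [ex_sum, Finset.prod_range]
  simp_rw [h2]
  rw [h1, Finset.prod_range]
  apply Finset.prod_congr rfl
  intro i _
  have h3 : ∫ ω, ex m (wt B i * bit (ω i)) ∂P = ∫ b, ex m (wt B i * bit b) ∂coin := by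
    have hmp := measurePreserving_eval_infinitePi (μ := fun _ : ℕ => coin) (i : ℕ)
    rw [← hmp.map_eq, integral_map (measurable_pi_apply _).aemeasurable
      (measurable_of_finite _).aestronglyMeasurable]
    rfl
  rw [h3, coin_integral]
  simp [bit, ex_zero_right]

lemma norm_half (m : ℤ) (y : ℝ) : ‖(1 + ex m y) / 2‖ = |Real.cos (Real.pi * m * y)| := by
  have h1 : (1 + ex m y) / 2 = Complex.exp (((Real.pi * m * y : ℝ) : ℂ) * Complex.I) *
      ((Real.cos (Real.pi * m * y) : ℝ) : ℂ) := by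
    rw [Complex.ofReal_cos, Complex.cos, ex_eq]
    rw [mul_div_assoc', mul_add, ← Complex.exp_add, ← Complex.exp_add]
    have e1 : ((Real.pi * m * y : ℝ) : ℂ) * Complex.I + ((Real.pi * m * y : ℝ) : ℂ) * Complex.I =
        ((2 * Real.pi * m * y : ℝ) : ℂ) * Complex.I := by push_cast; ring
    have e2 : ((Real.pi * m * y : ℝ) : ℂ) * Complex.I + -((Real.pi * m * y : ℝ) : ℂ) * Complex.I = 0 := by
      ring
    rw [e1, e2, Complex.exp_zero, add_comm]
  rw [h1, norm_mul, Complex.norm_exp_ofReal_mul_I, one_mul, Complex.norm_real, Real.norm_eq_abs]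

lemma cos_prod (α : ℝ) (p d : ℕ) :
    (∏ i ∈ Finset.range d, Real.cos (α * (1 / 2) ^ (p + i + 1))) * (2 ^ d * Real.sin (α * (1 / 2) ^ (p + d)))
      = Real.sin (α * (1 / 2) ^ p) := by
  induction d with
  | zero => simp
  | succ d ih =>
    rw [Finset.prod_range_succ, ← ih]
    have h1 : α * (1 / 2) ^ (p + d) = 2 * (α * (1 / 2) ^ (p + d + 1)) := by
      rw [pow_succ]; ring
    rw [h1, Real.sin_two_mul]
    have h2 : p + (d + 1) = p + d + 1 := by ring
    rw [h2]
    ring

/-- The decay of the Fourier coefficients below a gap of `B`. -/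
lemma decay_n (m : ℤ) (p d n : ℕ) (hB : ∀ i, p ≤ i → i < p + d → i ∉ B) (hn : p + d ≤ n)
    (h1 : 1 / 4 ≤ |(m : ℝ)| * (1 / 2) ^ (p + d)) (h2 : |(m : ℝ)| * (1 / 2) ^ (p + d) ≤ 1 / 2) :
    ‖∫ ω, ex m (Xn B n ω) ∂P‖ ≤ 2 * (1 / 2) ^ d := by
  obtain ⟨r, rfl⟩ := Nat.exists_eq_add_of_le hn
  rw [fourier_Xn, Finset.prod_range_add, Finset.prod_range_add, norm_mul, norm_mul]
  have hle : ∀ i, ‖(1 + ex m (wt B i)) / 2‖ ≤ 1 := by
    intro i
    rw [norm_half]
    exact Real.abs_cos_le_one _
  have e1 : ‖∏ i ∈ Finset.range p, (1 + ex m (wt B i)) / 2‖ ≤ 1 := by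
    rw [norm_prod]
    exact Finset.prod_le_one (fun i _ => norm_nonneg _) fun i _ => hle i
  have e2 : ‖∏ i ∈ Finset.range r, (1 + ex m (wt B (p + d + i))) / 2‖ ≤ 1 := by
    rw [norm_prod]
    exact Finset.prod_le_one (fun i _ => norm_nonneg _) fun i _ => hle _
  have e3 : ‖∏ i ∈ Finset.range d, (1 + ex m (wt B (p + i))) / 2‖ ≤ 2 * (1 / 2) ^ d := by
    rw [norm_prod]
    have h3 : ∀ i ∈ Finset.range d, ‖(1 + ex m (wt B (p + i))) / 2‖ =
        |Real.cos (Real.pi * m * (1 / 2) ^ (p + i + 1))| := by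
      intro i hi
      rw [norm_half]
      congr 3
      unfold wt
      rw [if_neg (hB (p + i) (by omega) (by
        have := Finset.mem_range.1 hi
        omega))]
    rw [Finset.prod_congr rfl h3, ← Finset.abs_prod]
    have h4 := cos_prod (Real.pi * m) p d
    have h5 : |∏ i ∈ Finset.range d, Real.cos (Real.pi * m * (1 / 2) ^ (p + i + 1))| *
        (2 ^ d * |Real.sin (Real.pi * m * (1 / 2) ^ (p + d))|) ≤ 1 := by
      have h6 := congrArg abs h4
      rw [abs_mul, abs_mul, abs_of_pos (by positivity : (0:ℝ) < 2 ^ d)] at h6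
      rw [h6]
      exact Real.abs_sin_le_one _
    have h6 : 1 / 2 ≤ |Real.sin (Real.pi * m * (1 / 2) ^ (p + d))| := by
      have h7 : |Real.sin (Real.pi * m * (1 / 2) ^ (p + d))| =
          |Real.sin (Real.pi * (|(m : ℝ)| * (1 / 2) ^ (p + d)))| := by
        rcases abs_choice (m : ℝ) with h | h
        · rw [h]; congr 2; ring
        · rw [h]
          have : Real.pi * (-(m : ℝ) * (1 / 2) ^ (p + d)) = -(Real.pi * m * (1 / 2) ^ (p + d)) := by ring
          rw [this, Real.sin_neg, abs_neg]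
      rw [h7]
      set t := |(m : ℝ)| * (1 / 2) ^ (p + d) with ht
      have hpi := Real.pi_pos
      have h8 := Real.mul_le_sin (x := Real.pi * t) (by positivity) (by nlinarith)
      have h9 : 2 / Real.pi * (Real.pi * t) = 2 * t := by field_simp
      rw [h9] at h8
      exact le_trans (by linarith) (h8.trans (le_abs_self _))
    set Q := |∏ i ∈ Finset.range d, Real.cos (Real.pi * m * (1 / 2) ^ (p + i + 1))| with hQ
    have hQ0 : 0 ≤ Q := abs_nonneg _
    have h2d : (0 : ℝ) < 2 ^ d := by positivity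
    have h10 : Q * 2 ^ d * (1 / 2) ≤ 1 := by
      calc Q * 2 ^ d * (1 / 2) ≤ Q * 2 ^ d * |Real.sin (Real.pi * m * (1 / 2) ^ (p + d))| :=
            mul_le_mul_of_nonneg_left h6 (by positivity)
        _ = Q * (2 ^ d * |Real.sin (Real.pi * m * (1 / 2) ^ (p + d))|) := by ring
        _ ≤ 1 := h5
    have h11 : Q * 2 ^ d ≤ 2 := by linarith
    have h12 : Q ≤ 2 / 2 ^ d := by rwa [le_div_iff₀ h2d]
    rw [one_div, inv_pow, ← div_eq_mul_inv]
    exact h12
  calc _ ≤ (1 : ℝ) * (2 * (1 / 2) ^ d) * 1 := by gcongr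
    _ = 2 * (1 / 2 : ℝ) ^ d := by ring

/-- the Fourier coefficients of the law of `X` -/
noncomputable def mhat (m : ℤ) : ℂ := ∫ ω, ex m (X B ω) ∂P

lemma mhat_tendsto (m : ℤ) : Tendsto (fun n => ∫ ω, ex m (Xn B n ω) ∂P) atTop (𝓝 (mhat B m)) := by
  unfold mhat
  apply tendsto_integral_of_dominated_convergence (fun _ => 1)
  · intro n
    exact ((ex_cont m).comp (Xn_cont B n)).aestronglyMeasurable
  · exact integrable_const _
  · intro n
    exact ae_of_all _ fun ω => (ex_norm _ _).le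
  · exact ae_of_all _ fun ω => ((ex_cont m).tendsto _).comp (Xn_tendsto B ω)

lemma mhat_le_one (m : ℤ) : ‖mhat B m‖ ≤ 1 := by
  unfold mhat
  refine (norm_integral_le_integral_norm _).trans ?_
  simp [ex_norm]

lemma decay (m : ℤ) (p d : ℕ) (hB : ∀ i, p ≤ i → i < p + d → i ∉ B)
    (h1 : 1 / 4 ≤ |(m : ℝ)| * (1 / 2) ^ (p + d)) (h2 : |(m : ℝ)| * (1 / 2) ^ (p + d) ≤ 1 / 2) :
    ‖mhat B m‖ ≤ 2 * (1 / 2) ^ d := by
  refine le_of_tendsto (mhat_tendsto B m).norm ?_
  filter_upwards [eventually_ge_atTop (p + d)] with n hn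
  exact decay_n B m p d n hB hn h1 h2

lemma mhat_neg (m : ℤ) : ‖mhat B (-m)‖ = ‖mhat B m‖ := by
  unfold mhat
  simp_rw [ex_neg]
  rw [integral_conj, RCLike.norm_conj]

/-! ### Small sets -/

open Classical in
/-- the numerator of `Xn` -/
noncomputable def V : ℕ → (ℕ → Bool) → ℕ
  | 0, _ => 0
  | (n + 1), ω => 2 * V n ω + (if n ∈ B then 0 else if ω n then 1 else 0)

lemma Xn_eq (n : ℕ) (ω : ℕ → Bool) : Xn B n ω = V B n ω * (1 / 2) ^ n := by
  induction n with
  | zero => simp [Xn, V]
  | succ n ih =>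
    have h1 : Xn B (n + 1) ω = Xn B n ω + wt B n * bit (ω n) := by
      unfold Xn
      rw [Finset.sum_range_succ]
    rw [h1, ih]
    simp only [V, wt, bit]
    by_cases hn : n ∈ B
    · simp only [hn, if_true]
      push_cast
      ring
    · simp only [hn, if_false]
      cases ω n
      · simp only [Bool.false_eq_true, if_false]
        push_cast
        ring
      · simp only [if_true]
        push_cast
        ring

lemma V_inj (n : ℕ) (ω ω' : ℕ → Bool) (h : V B n ω = V B n ω') :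
    ∀ i < n, i ∉ B → ω i = ω' i := by
  induction n with
  | zero => intro i hi; omega
  | succ n ih =>
    intro i hi hiB
    simp only [V] at h
    by_cases hn : n ∈ B
    · simp only [hn, if_true] at h
      have hin : i ≠ n := fun hc => hiB (hc ▸ hn)
      exact ih (by omega) i (by omega) hiB
    · simp only [hn, if_false] at h
      have hb : ω n = ω' n ∧ V B n ω = V B n ω' := by
        cases h1 : ω n <;> cases h2 : ω' n <;> simp [h1, h2] at h ⊢ <;> omega
      rcases Nat.lt_succ_iff_lt_or_eq.1 hi with h3 | h3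
      · exact ih hb.2 i h3 hiB
      · rw [h3]; exact hb.1

open Classical in
/-- the number of the elements of `B` below `n` -/
noncomputable def cB (n : ℕ) : ℕ := ((Finset.range n).filter (· ∈ B)).card

lemma cB_le (n : ℕ) : cB B n ≤ n := by
  classical
  unfold cB
  refine (Finset.card_filter_le _ _).trans ?_
  simp

lemma V_prob (n : ℕ) (v : ℤ) : P {ω | (V B n ω : ℤ) = v} ≤ (2⁻¹ : ℝ≥0∞) ^ (n - cB B n) := by
  classical
  by_cases he : ∃ ω', (V B n ω' : ℤ) = v
  swap
  · have : {ω | (V B n ω : ℤ) = v} = ∅ := by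
      ext ω
      simp only [Set.mem_ofPred_eq, Set.mem_empty_iff_false, iff_false]
      exact fun hc => he ⟨ω, hc⟩
    rw [this, measure_empty]
    exact zero_le
  · obtain ⟨ω', hω'⟩ := he
    set s : Finset ℕ := (Finset.range n).filter (· ∉ B) with hs
    have hsub : {ω | (V B n ω : ℤ) = v} ⊆ Set.pi s fun i => {ω' i} := by
      intro ω hω i hi
      have h1 := Finset.mem_filter.1 (Finset.mem_coe.1 hi)
      have h2 : V B n ω = V B n ω' := by
        have : (V B n ω : ℤ) = V B n ω' := by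
          rw [hω']; exact hω
        exact_mod_cast this
      exact V_inj B n ω ω' h2 i (Finset.mem_range.1 h1.1) h1.2
    refine (measure_mono hsub).trans ?_
    unfold P
    rw [Measure.infinitePi_pi _ fun i _ => measurableSet_singleton _]
    simp only [coin_single, Finset.prod_const]
    have hcard : s.card = n - cB B n := by
      have h1 := Finset.card_filter_add_card_filter_not (s := Finset.range n) (p := (· ∈ B))
      rw [Finset.card_range] at h1
      unfold cB
      rw [hs]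
      omega
    rw [hcard]

/-- The measure of a set of small diameter. -/
lemma small_prob (n : ℕ) (U : Set ℝ) (hU : ∀ x ∈ U, ∀ y ∈ U, |x - y| ≤ (1 / 2) ^ n) :
    P (X B ⁻¹' U) ≤ 4 * (2⁻¹ : ℝ≥0∞) ^ (n - cB B n) := by
  rcases U.eq_empty_or_nonempty with rfl | ⟨x0, hx0⟩
  · simp
  set y : ℝ := 2 ^ n * x0 with hy
  have h2n : (0 : ℝ) < 2 ^ n := by positivity
  have h2 : (2 : ℝ) ^ n * (1 / 2) ^ n = 1 := by
    rw [← mul_pow]; norm_num
  have hsub : X B ⁻¹' U ⊆ ⋃ j ∈ Finset.range 4, {ω | (V B n ω : ℤ) = ⌈y - 2⌉ + (j : ℕ)} := by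
    intro ω hω
    have h1 := abs_le.1 (hU (X B ω) hω x0 hx0)
    have h3 := Xn_le B n ω
    have h4 := X_le B n ω
    have h5 : (V B n ω : ℝ) = 2 ^ n * Xn B n ω := by
      rw [Xn_eq]
      calc (V B n ω : ℝ) = V B n ω * (2 ^ n * (1 / 2) ^ n) := by rw [h2, mul_one]
        _ = _ := by ring
    have h6 : (V B n ω : ℝ) ≤ y + 1 := by
      rw [h5, hy]
      have : 2 ^ n * Xn B n ω ≤ 2 ^ n * (x0 + (1 / 2) ^ n) := by
        apply mul_le_mul_of_nonneg_left _ h2n.le
        linarith
      rw [mul_add, h2] at this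
      exact this
    have h7 : y - 2 ≤ V B n ω := by
      rw [h5, hy]
      have : 2 ^ n * (x0 - 2 * (1 / 2) ^ n) ≤ 2 ^ n * Xn B n ω := by
        apply mul_le_mul_of_nonneg_left _ h2n.le
        linarith
      have e : (2 : ℝ) ^ n * (x0 - 2 * (1 / 2) ^ n) = 2 ^ n * x0 - 2 := by
        rw [mul_sub, mul_left_comm, h2, mul_one]
      rw [e] at this
      exact this
    have h8 : ⌈y - 2⌉ ≤ (V B n ω : ℤ) := Int.ceil_le.2 (by exact_mod_cast h7)
    have h9 : (V B n ω : ℤ) ≤ ⌈y - 2⌉ + 3 := by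
      have h10 := Int.le_ceil (y - 2)
      have h11 : (V B n ω : ℝ) ≤ ⌈y - 2⌉ + 3 := by linarith
      exact_mod_cast h11
    simp only [Set.mem_iUnion, Finset.mem_range, Set.mem_ofPred_eq]
    refine ⟨((V B n ω : ℤ) - ⌈y - 2⌉).toNat, by omega, by omega⟩
  refine (measure_mono hsub).trans ((measure_biUnion_finset_le _ _).trans ?_)
  refine (Finset.sum_le_sum fun j _ => V_prob B n _).trans ?_
  simp

end Pool.Agent.TH275.UQ
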