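import Mathlib
import Pool.Agent.TH275.UQ.Meas

set_option autoImplicit false

/-!
Almost sure decay of the Weyl sums of `h b^i X`.
-/

namespace Pool.Agent.TH275.UQ

open Filter Topology MeasureTheory ProbabilityTheory
open scoped ENNReal

section Pair

variable (B : Set ℕ) (b h : ℕ)

/-- binary size of `h b^k` -/
def Q (k : ℕ) : ℕ := Nat.log 2 (h * b ^ k)

variable {b h}

lemma Q_spec (hb : 2 ≤ b) (hh : 1 ≤ h) (k : ℕ) : 2 ^ Q b h k ≤ h * b ^ k ∧ h * b ^ k < 2 ^ (Q b h k + 1) := by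
  have h0 : h * b ^ k ≠ 0 := by positivity
  exact ⟨Nat.pow_log_le_self 2 h0, Nat.lt_pow_succ_log_self (by norm_num) _⟩

lemma Q_succ (hb : 2 ≤ b) (hh : 1 ≤ h) (k : ℕ) : Q b h k + 1 ≤ Q b h (k + 1) := by
  have h1 := (Q_spec hb hh k).1
  unfold Q at h1 ⊢
  apply Nat.le_log_of_pow_le (by norm_num)
  calc 2 ^ (Nat.log 2 (h * b ^ k) + 1) = 2 ^ (Nat.log 2 (h * b ^ k)) * 2 := pow_succ _ _
    _ ≤ (h * b ^ k) * b := Nat.mul_le_mul h1 hb
    _ = h * b ^ (k + 1) := by ring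

lemma Q_strict (hb : 2 ≤ b) (hh : 1 ≤ h) : StrictMono (Q b h) :=
  strictMono_nat_of_lt_succ fun k => Q_succ hb hh k

lemma Q_ge (hb : 2 ≤ b) (hh : 1 ≤ h) (k : ℕ) : k ≤ Q b h k := (Q_strict hb hh).le_apply

/-- decay of the coefficients for pairs whose larger element is good -/
lemma good_pair (hb : 2 ≤ b) (hh : 1 ≤ h) {i j L : ℕ} (hij : j < i) (hL : L ≤ i)
    (hgood : ∀ t ∈ B, ¬ (t ≤ Q b h i + 1 ∧ Q b h i + 1 ≤ t + L)) :
    ‖mhat B ((h * b ^ i : ℕ) - (h * b ^ j : ℕ) : ℤ)‖ ≤ 2 * (1 / 2) ^ L := by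
  obtain ⟨hq1, hq2⟩ := Q_spec hb hh i
  have hLQ : L ≤ Q b h i := hL.trans (Q_ge hb hh i)
  set q0 := Q b h i with hq0
  have hhalf : 2 * (h * b ^ j) ≤ h * b ^ i := by
    obtain ⟨d, rfl⟩ := Nat.exists_eq_add_of_lt hij
    calc 2 * (h * b ^ j) ≤ b ^ (d + 1) * (h * b ^ j) := by
          apply Nat.mul_le_mul_right
          calc 2 ≤ b ^ 1 := by simpa using hb
            _ ≤ b ^ (d + 1) := Nat.pow_le_pow_right (by omega) (by omega)
      _ = h * b ^ (j + d + 1) := by ring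
  have hj0 : 0 < h * b ^ j := by positivity
  obtain ⟨M, hM⟩ : ∃ M : ℕ, h * b ^ i = h * b ^ j + M := ⟨h * b ^ i - h * b ^ j, by omega⟩
  have hMe : ((h * b ^ i : ℕ) - (h * b ^ j : ℕ) : ℤ) = (M : ℤ) := by
    rw [hM]; push_cast; ring
  rw [hMe]
  have hM1 : h * b ^ i ≤ 2 * M := by omega
  have hM2 : M < h * b ^ i := by omega
  by_cases hc : 2 ^ q0 ≤ M
  · have hp : (q0 + 2 - L) + L = q0 + 2 := by omega
    apply decay B M (q0 + 2 - L) L
    · intro t ht1 ht2 htB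
      exact hgood t htB ⟨by omega, by omega⟩
    · rw [hp]
      have h1 : ((2 : ℝ) ^ q0) ≤ M := by exact_mod_cast hc
      have h2 : (2 : ℝ) ^ q0 * (1 / 2) ^ (q0 + 2) = 1 / 4 := by
        rw [pow_add, ← mul_assoc, ← mul_pow]; norm_num
      rw [← h2]
      apply mul_le_mul_of_nonneg_right _ (by positivity)
      simpa using h1
    · rw [hp]
      have h1 : (M : ℝ) ≤ (2 : ℝ) ^ (q0 + 1) := by exact_mod_cast (by omega : M ≤ 2 ^ (q0 + 1))
      have h2 : (2 : ℝ) ^ (q0 + 1) * (1 / 2) ^ (q0 + 2) = 1 / 2 := by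
        rw [show q0 + 2 = (q0 + 1) + 1 by ring, pow_succ (1 / 2 : ℝ) (q0 + 1), ← mul_assoc, ← mul_pow]
        norm_num
      refine le_trans ?_ h2.le
      apply mul_le_mul_of_nonneg_right _ (by positivity)
      simpa using h1
  · have hp : (q0 + 1 - L) + L = q0 + 1 := by omega
    push Not at hc
    apply decay B M (q0 + 1 - L) L
    · intro t ht1 ht2 htB
      exact hgood t htB ⟨by omega, by omega⟩
    · rw [hp]
      have h1 : ((2 : ℝ) ^ q0) ≤ 2 * M := by exact_mod_cast (by omega : 2 ^ q0 ≤ 2 * M)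
      have h2 : (2 : ℝ) ^ q0 * (1 / 2) ^ (q0 + 1) = 1 / 2 := by
        rw [pow_add, ← mul_assoc, ← mul_pow]; norm_num
      have h3 : (2 : ℝ) ^ q0 * (1 / 2) ^ (q0 + 1) ≤ 2 * M * (1 / 2) ^ (q0 + 1) :=
        mul_le_mul_of_nonneg_right h1 (by positivity)
      rw [h2] at h3
      have h4 : |((M : ℤ) : ℝ)| = M := by simp
      rw [h4]
      linarith
    · rw [hp]
      have h1 : (M : ℝ) ≤ (2 : ℝ) ^ q0 := by exact_mod_cast hc.le
      have h2 : (2 : ℝ) ^ q0 * (1 / 2) ^ (q0 + 1) = 1 / 2 := by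
        rw [pow_add, ← mul_assoc, ← mul_pow]; norm_num
      refine le_trans ?_ h2.le
      apply mul_le_mul_of_nonneg_right _ (by positivity)
      simpa using h1

open Classical in
/-- bad indices -/
noncomputable def bad (b h L N : ℕ) : Finset ℕ :=
  (Finset.range N).filter fun k => k < L ∨ ∃ t ∈ B, t ≤ Q b h k + 1 ∧ Q b h k + 1 ≤ t + L

lemma card_bad (hb : 2 ≤ b) (hh : 1 ≤ h) (L N : ℕ) :
    (bad B b h L N).card ≤ L + cB B (Q b h N + 2) * (L + 1) := by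
  classical
  set Bf : Finset ℕ := (Finset.range (Q b h N + 2)).filter (· ∈ B) with hBf
  have hsub : bad B b h L N ⊆ Finset.range L ∪ Bf.biUnion fun t =>
      (Finset.range N).filter fun k => t ≤ Q b h k + 1 ∧ Q b h k + 1 ≤ t + L := by
    intro k hk
    unfold bad at hk
    rw [Finset.mem_filter] at hk
    rw [Finset.mem_union]
    rcases hk.2 with h1 | ⟨t, htB, ht1, ht2⟩
    · exact Or.inl (Finset.mem_range.2 h1)
    · right
      rw [Finset.mem_biUnion]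
      refine ⟨t, ?_, Finset.mem_filter.2 ⟨hk.1, ht1, ht2⟩⟩
      rw [hBf, Finset.mem_filter, Finset.mem_range]
      have h2 := (Q_strict hb hh) (Finset.mem_range.1 hk.1)
      exact ⟨by omega, htB⟩
  refine (Finset.card_le_card hsub).trans ((Finset.card_union_le _ _).trans ?_)
  rw [Finset.card_range]
  apply Nat.add_le_add_left
  have hcB : cB B (Q b h N + 2) = Bf.card := by
    unfold cB
    rw [hBf]
  rw [hcB]
  apply Finset.card_biUnion_le_card_mul
  intro t _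
  have hinj : Set.InjOn (fun k => Q b h k + 1)
      (((Finset.range N).filter fun k => t ≤ Q b h k + 1 ∧ Q b h k + 1 ≤ t + L : Finset ℕ) : Set ℕ) := by
    intro x _ y _ hxy
    have : Q b h x + 1 = Q b h y + 1 := hxy
    exact (Q_strict hb hh).injective (by omega)
  rw [← Finset.card_image_of_injOn hinj]
  calc _ ≤ (Finset.Icc t (t + L)).card := by
        apply Finset.card_le_card
        intro x hx
        rw [Finset.mem_image] at hx
        obtain ⟨k, hk, rfl⟩ := hx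
        rw [Finset.mem_filter] at hk
        rw [Finset.mem_Icc]
        exact hk.2
    _ = L + 1 := by rw [Nat.card_Icc]; omega

/-- the pair bound -/
lemma pair_bound (hb : 2 ≤ b) (hh : 1 ≤ h) (L N i j : ℕ) (hi : i < N) (hj : j < N) :
    ‖mhat B ((h * b ^ i : ℕ) - (h * b ^ j : ℕ) : ℤ)‖ ≤ (if i = j then 1 else 0) +
      (if i ∈ bad B b h L N then 1 else 0) + (if j ∈ bad B b h L N then 1 else 0) +
        2 * (1 / 2) ^ L := by
  classical
  have hpos : (0 : ℝ) ≤ 2 * (1 / 2) ^ L := by positivity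
  have h1 := mhat_le_one B ((h * b ^ i : ℕ) - (h * b ^ j : ℕ) : ℤ)
  have i1 : (0 : ℝ) ≤ (if i = j then 1 else 0) := by split_ifs <;> norm_num
  have i2 : (0 : ℝ) ≤ (if i ∈ bad B b h L N then 1 else 0) := by split_ifs <;> norm_num
  have i3 : (0 : ℝ) ≤ (if j ∈ bad B b h L N then 1 else 0) := by split_ifs <;> norm_num
  have key : ∀ i j : ℕ, i < N → j < i → i ∉ bad B b h L N →
      ‖mhat B ((h * b ^ i : ℕ) - (h * b ^ j : ℕ) : ℤ)‖ ≤ 2 * (1 / 2) ^ L := by
    intro i j hi hij hnb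
    have h2 : ¬ (i < L ∨ ∃ t ∈ B, t ≤ Q b h i + 1 ∧ Q b h i + 1 ≤ t + L) := by
      intro hc
      apply hnb
      unfold bad
      rw [Finset.mem_filter]
      exact ⟨Finset.mem_range.2 hi, hc⟩
    push Not at h2
    apply good_pair B hb hh hij h2.1
    intro t ht hc
    have := h2.2 t ht hc.1
    omega
  rcases lt_trichotomy i j with h2 | h2 | h2
  · by_cases hjb : j ∈ bad B b h L N
    · rw [if_pos hjb]
      linarith
    · have h3 := key j i hj h2 hjb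
      have h4 := mhat_neg B ((h * b ^ j : ℕ) - (h * b ^ i : ℕ) : ℤ)
      rw [neg_sub] at h4
      rw [h4]
      linarith
  · rw [if_pos h2]
    linarith
  · by_cases hib : i ∈ bad B b h L N
    · rw [if_pos hib]
      linarith
    · have h3 := key i j hi h2 hib
      linarith

/-- the Weyl sums -/
noncomputable def SW (b h N : ℕ) (ω : ℕ → Bool) : ℂ :=
  ∑ i ∈ Finset.range N, ex (h * b ^ i : ℕ) (X B ω)

lemma SW_cont (N : ℕ) : Continuous (SW B b h N) := by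
  unfold SW
  exact continuous_finsetSum _ fun i _ => (ex_cont _).comp (X_cont B)

lemma SW_norm (N : ℕ) (ω : ℕ → Bool) : ‖SW B b h N ω‖ ≤ N := by
  unfold SW
  refine (norm_sum_le _ _).trans ?_
  simp [ex_norm]

lemma second_moment (hb : 2 ≤ b) (hh : 1 ≤ h) (L N : ℕ) :
    ∫ ω, ‖SW B b h N ω‖ ^ 2 ∂P ≤
      N + 2 * N * (bad B b h L N).card + 2 * (N : ℝ) ^ 2 * (1 / 2) ^ L := by
  classical
  have hpt : ∀ ω, ‖SW B b h N ω‖ ^ 2 = (∑ i ∈ Finset.range N, ∑ j ∈ Finset.range N,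
      ex ((h * b ^ i : ℕ) - (h * b ^ j : ℕ) : ℤ) (X B ω)).re := by
    intro ω
    have h1 : ∑ i ∈ Finset.range N, ∑ j ∈ Finset.range N,
        ex ((h * b ^ i : ℕ) - (h * b ^ j : ℕ) : ℤ) (X B ω) =
        SW B b h N ω * starRingEnd ℂ (SW B b h N ω) := by
      unfold SW
      rw [map_sum, Finset.sum_mul_sum]
      apply Finset.sum_congr rfl
      intro i _
      apply Finset.sum_congr rfl
      intro j _
      rw [sub_eq_add_neg, ex_add_left, ex_neg]
    rw [h1, Complex.mul_conj, Complex.ofReal_re, Complex.normSq_eq_norm_sq]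
  simp_rw [hpt]
  have hint : ∀ m : ℤ, Integrable (fun ω => ex m (X B ω)) P := by
    intro m
    refine Integrable.of_bound ((ex_cont m).comp (X_cont B)).aestronglyMeasurable 1 ?_
    exact ae_of_all _ fun ω => (ex_norm _ _).le
  have hre : ∫ ω, (∑ i ∈ Finset.range N, ∑ j ∈ Finset.range N,
      ex ((h * b ^ i : ℕ) - (h * b ^ j : ℕ) : ℤ) (X B ω)).re ∂P =
      (∑ i ∈ Finset.range N, ∑ j ∈ Finset.range N,
        mhat B ((h * b ^ i : ℕ) - (h * b ^ j : ℕ) : ℤ)).re := by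
    have h1 : Integrable (fun ω => ∑ i ∈ Finset.range N, ∑ j ∈ Finset.range N,
      ex ((h * b ^ i : ℕ) - (h * b ^ j : ℕ) : ℤ) (X B ω)) P :=
      integrable_finsetSum _ fun i _ => integrable_finsetSum _ fun j _ => hint _
    have h2 := integral_re h1
    rw [RCLike.re_eq_complex_re] at h2
    rw [h2]
    congr 1
    rw [integral_finsetSum _ fun i _ => integrable_finsetSum _ fun j _ => hint _]
    apply Finset.sum_congr rfl
    intro i _
    rw [integral_finsetSum _ fun j _ => hint _]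
    rfl
  rw [hre]
  refine (Complex.re_le_norm _).trans ((norm_sum_le _ _).trans ?_)
  calc ∑ i ∈ Finset.range N, ‖∑ j ∈ Finset.range N, mhat B ((h * b ^ i : ℕ) - (h * b ^ j : ℕ) : ℤ)‖
      ≤ ∑ i ∈ Finset.range N, ∑ j ∈ Finset.range N, ((if i = j then 1 else 0) +
        (if i ∈ bad B b h L N then 1 else 0) + (if j ∈ bad B b h L N then 1 else 0) +
          2 * (1 / 2 : ℝ) ^ L) := by
        apply Finset.sum_le_sum
        intro i hi
        refine (norm_sum_le _ _).trans (Finset.sum_le_sum fun j hj => ?_)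
        exact pair_bound B hb hh L N i j (Finset.mem_range.1 hi) (Finset.mem_range.1 hj)
    _ = _ := by
        have hbs : bad B b h L N ⊆ Finset.range N := by
          unfold bad
          exact Finset.filter_subset _ _
        have hc : ∑ i ∈ Finset.range N, (if i ∈ bad B b h L N then (1 : ℝ) else 0) =
            (bad B b h L N).card := by
          rw [Finset.sum_ite_mem, Finset.inter_eq_right.2 hbs]
          simp
        simp only [Finset.sum_add_distrib, Finset.sum_const, Finset.card_range, nsmul_eq_mul]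
        rw [← Finset.mul_sum, hc]
        have h3 : ∑ i ∈ Finset.range N, ∑ j ∈ Finset.range N, (if i = j then (1 : ℝ) else 0) = N := by
          have : ∀ i ∈ Finset.range N, ∑ j ∈ Finset.range N, (if i = j then (1 : ℝ) else 0) = 1 := by
            intro i hi
            rw [Finset.sum_ite_eq, if_pos hi]
          rw [Finset.sum_congr rfl this]
          simp
        rw [h3]
        ring

end Pair

/-! ### Interpolation -/

lemma interp {a : ℕ → ℂ} (ha : ∀ i, ‖a i‖ ≤ 1)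
    (h4 : Tendsto (fun k : ℕ => ‖∑ i ∈ Finset.range (k ^ 4), a i‖ / (k : ℝ) ^ 4) atTop (𝓝 0)) :
    Tendsto (fun N : ℕ => ‖∑ i ∈ Finset.range N, a i‖ / N) atTop (𝓝 0) := by
  let r : ℕ → ℕ := fun N => Nat.sqrt (Nat.sqrt N)
  have hr : Tendsto r atTop atTop := by
    rw [tendsto_atTop_atTop]
    intro m
    refine ⟨m ^ 4, fun N hN => ?_⟩
    rw [Nat.le_sqrt, Nat.le_sqrt]
    calc m * m * (m * m) = m ^ 4 := by ring
      _ ≤ N := hN
  have h1 := h4.comp hr
  have h2 : Tendsto (fun N : ℕ => 15 / ((r N : ℕ) : ℝ)) atTop (𝓝 0) :=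
    (tendsto_natCast_atTop_atTop.comp hr).const_div_atTop 15
  have h3 := h1.add h2
  rw [add_zero] at h3
  refine squeeze_zero' (Eventually.of_forall fun N => by positivity) ?_ h3
  filter_upwards [eventually_ge_atTop 1] with N hN
  have hk1 : 1 ≤ r N := by
    simp only [r]
    rw [Nat.le_sqrt, Nat.le_sqrt]
    omega
  set k := r N with hk
  have hk4 : k ^ 4 ≤ N := by
    have e1 := Nat.sqrt_le (Nat.sqrt N)
    have e2 := Nat.sqrt_le N
    calc k ^ 4 = (k * k) * (k * k) := by ring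
      _ ≤ Nat.sqrt N * Nat.sqrt N := Nat.mul_le_mul e1 e1
      _ ≤ N := e2
  have hN4 : N < (k + 1) ^ 4 := by
    have e1 := Nat.lt_succ_sqrt (Nat.sqrt N)
    have e2 := Nat.lt_succ_sqrt N
    have e3 : Nat.sqrt N + 1 ≤ (k + 1) * (k + 1) := e1
    calc N < (Nat.sqrt N + 1) * (Nat.sqrt N + 1) := e2
      _ ≤ ((k + 1) * (k + 1)) * ((k + 1) * (k + 1)) := Nat.mul_le_mul e3 e3
      _ = (k + 1) ^ 4 := by ring
  obtain ⟨s, hs⟩ := Nat.exists_eq_add_of_le hk4
  have hs2 : s ≤ 15 * k ^ 3 := by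
    have e1 : (k + 1) ^ 4 = k ^ 4 + (4 * k ^ 3 + 6 * k ^ 2 + 4 * k + 1) := by ring
    have e2 : s < 4 * k ^ 3 + 6 * k ^ 2 + 4 * k + 1 := by omega
    have e3 : k ^ 2 ≤ k ^ 3 := Nat.pow_le_pow_right hk1 (by norm_num)
    have e4 : k ≤ k ^ 3 := by
      calc k = k ^ 1 := (pow_one k).symm
        _ ≤ k ^ 3 := Nat.pow_le_pow_right hk1 (by norm_num)
    have e5 : 1 ≤ k ^ 3 := Nat.one_le_pow _ _ hk1
    omega
  have h5 : ‖∑ i ∈ Finset.range N, a i‖ ≤ ‖∑ i ∈ Finset.range (k ^ 4), a i‖ + s := by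
    rw [hs, Finset.sum_range_add]
    refine (norm_add_le _ _).trans (add_le_add le_rfl ?_)
    refine (norm_sum_le _ _).trans ?_
    calc ∑ i ∈ Finset.range s, ‖a (k ^ 4 + i)‖ ≤ ∑ i ∈ Finset.range s, (1 : ℝ) :=
          Finset.sum_le_sum fun i _ => ha _
      _ = s := by simp
  have hkr : (1 : ℝ) ≤ k := by exact_mod_cast hk1
  have hNr : (k : ℝ) ^ 4 ≤ N := by exact_mod_cast hk4
  have hk4r : (0 : ℝ) < (k : ℝ) ^ 4 := by positivity
  have hsr : (s : ℝ) ≤ 15 * (k : ℝ) ^ 3 := by exact_mod_cast hs2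
  simp only [Function.comp_apply]
  calc ‖∑ i ∈ Finset.range N, a i‖ / N ≤ ‖∑ i ∈ Finset.range N, a i‖ / (k : ℝ) ^ 4 := by
        gcongr
    _ ≤ (‖∑ i ∈ Finset.range (k ^ 4), a i‖ + 15 * (k : ℝ) ^ 3) / (k : ℝ) ^ 4 := by
        gcongr
        linarith
    _ = _ := by
        rw [add_div]
        congr 1
        field_simp

/-! ### Almost sure decay -/

variable {β : ℕ → ℕ}

lemma cB_pow (hβ2 : ∀ k, 2 ^ k ≤ β k) {y z : ℕ} (hy : y ≤ 2 ^ z) : cB (Set.range β) y ≤ z := by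
  classical
  unfold cB
  have hsub : (Finset.range y).filter (· ∈ Set.range β) ⊆ (Finset.range z).image β := by
    intro t ht
    rw [Finset.mem_filter, Finset.mem_range] at ht
    obtain ⟨h1, k, rfl⟩ := ht
    rw [Finset.mem_image]
    refine ⟨k, Finset.mem_range.2 ?_, rfl⟩
    have h2 : 2 ^ k < 2 ^ z := lt_of_le_of_lt (hβ2 k) (lt_of_lt_of_le h1 hy)
    exact (Nat.pow_lt_pow_iff_right (by norm_num)).1 h2
  refine (Finset.card_le_card hsub).trans (Finset.card_image_le.trans ?_)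
  simp

lemma moment4 (hβ2 : ∀ k, 2 ^ k ≤ β k) {b h : ℕ} (hb : 2 ≤ b) (hh : 1 ≤ h) :
    ∃ C : ℝ, 0 ≤ C ∧ ∀ k : ℕ, 1 ≤ k →
      ∫ ω, ‖SW (Set.range β) b h (k ^ 4) ω‖ ^ 2 ∂P ≤ C * (k : ℝ) ^ 6 := by
  refine ⟨3 + 2 * (4 + 5 * (h + b + 6)), by positivity, fun k hk => ?_⟩
  have h1 := second_moment (Set.range β) hb hh (4 * k) (k ^ 4)
  have h2 := card_bad (Set.range β) hb hh (4 * k) (k ^ 4)
  have h3 : cB (Set.range β) (Q b h (k ^ 4) + 2) ≤ h + b + 4 * k + 2 := by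
    apply cB_pow hβ2
    have hk2 : k < 2 ^ k := Nat.lt_two_pow_self
    have e1 : Q b h (k ^ 4) ≤ h + b * k ^ 4 := by
      have e2 : h * b ^ (k ^ 4) < 2 ^ (h + b * k ^ 4) := by
        rw [pow_add, pow_mul]
        apply Nat.mul_lt_mul_of_lt_of_le Nat.lt_two_pow_self _ (by positivity)
        exact Nat.pow_le_pow_left Nat.lt_two_pow_self.le _
      have e3 := (Nat.log_lt_of_lt_pow (by positivity) e2)
      unfold Q
      exact e3.le
    have e4 : k ^ 4 ≤ 2 ^ (4 * k) := by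
      rw [mul_comm, pow_mul]
      exact Nat.pow_le_pow_left hk2.le 4
    have e5 : b * k ^ 4 ≤ 2 ^ (b + 4 * k) := by
      rw [pow_add]
      exact Nat.mul_le_mul Nat.lt_two_pow_self.le e4
    have e6 : h + 2 ≤ 2 ^ (h + 2) := Nat.lt_two_pow_self.le
    have e7 : 2 ≤ 2 ^ (b + 4 * k) := by
      calc 2 = 2 ^ 1 := rfl
        _ ≤ _ := Nat.pow_le_pow_right (by norm_num) (by omega)
    have e8 : 2 ≤ 2 ^ (h + 2) := by
      calc 2 = 2 ^ 1 := rfl
        _ ≤ _ := Nat.pow_le_pow_right (by norm_num) (by omega)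
    have e9 : 2 ^ (h + 2) + 2 ^ (b + 4 * k) ≤ 2 ^ (h + 2) * 2 ^ (b + 4 * k) := by
      nlinarith
    calc Q b h (k ^ 4) + 2 ≤ (h + 2) + b * k ^ 4 := by omega
      _ ≤ 2 ^ (h + 2) + 2 ^ (b + 4 * k) := by omega
      _ ≤ _ := e9
      _ = 2 ^ (h + b + 4 * k + 2) := by rw [← pow_add]; congr 1; ring
  have h4 : (bad (Set.range β) b h (4 * k) (k ^ 4)).card ≤ (4 + 5 * (h + b + 6)) * k ^ 2 := by
    refine h2.trans ?_
    have e1 : cB (Set.range β) (Q b h (k ^ 4) + 2) * (4 * k + 1) ≤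
        (h + b + 4 * k + 2) * (4 * k + 1) := Nat.mul_le_mul_right _ h3
    have e2 : h + b + 4 * k + 2 ≤ (h + b + 6) * k := by nlinarith
    have e3 : 4 * k + 1 ≤ 5 * k := by omega
    have e4 : (h + b + 4 * k + 2) * (4 * k + 1) ≤ ((h + b + 6) * k) * (5 * k) :=
      Nat.mul_le_mul e2 e3
    have e5 : 4 * k ≤ 4 * k ^ 2 := by nlinarith
    calc 4 * k + _ ≤ 4 * k ^ 2 + ((h + b + 6) * k) * (5 * k) := Nat.add_le_add e5 (e1.trans e4)
      _ = _ := by ring
  have h4r : ((bad (Set.range β) b h (4 * k) (k ^ 4)).card : ℝ) ≤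
      (4 + 5 * (h + b + 6)) * (k : ℝ) ^ 2 := by exact_mod_cast h4
  refine h1.trans ?_
  have hkr : (1 : ℝ) ≤ k := by exact_mod_cast hk
  have h5 : ((k ^ 4 : ℕ) : ℝ) ^ 2 * (1 / 2) ^ (4 * k) ≤ (k : ℝ) ^ 4 := by
    have e1 : (k : ℝ) ≤ 2 ^ k := by exact_mod_cast (Nat.lt_two_pow_self (n := k)).le
    have e2 : (k : ℝ) * (1 / 2) ^ k ≤ 1 := by
      rw [one_div, inv_pow, ← div_eq_mul_inv, div_le_one (by positivity)]
      exact e1
    have e3 : ((k : ℝ) * (1 / 2) ^ k) ^ 4 ≤ 1 := pow_le_one₀ (by positivity) e2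
    push_cast
    calc ((k : ℝ) ^ 4) ^ 2 * (1 / 2) ^ (4 * k) = (k : ℝ) ^ 4 * ((k : ℝ) * (1 / 2) ^ k) ^ 4 := by
          rw [mul_pow, ← pow_mul, ← pow_mul]
          ring
      _ ≤ (k : ℝ) ^ 4 * 1 := mul_le_mul_of_nonneg_left e3 (by positivity)
      _ = _ := mul_one _
  have h6 : (k : ℝ) ^ 4 ≤ (k : ℝ) ^ 6 := pow_le_pow_right₀ hkr (by norm_num)
  push_cast at h1 h5 ⊢
  calc (k : ℝ) ^ 4 + 2 * (k : ℝ) ^ 4 * ((bad (Set.range β) b h (4 * k) (k ^ 4)).card : ℝ) +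
        2 * ((k : ℝ) ^ 4) ^ 2 * (1 / 2) ^ (4 * k)
      ≤ (k : ℝ) ^ 4 + 2 * (k : ℝ) ^ 4 * ((4 + 5 * (h + b + 6)) * (k : ℝ) ^ 2) +
        2 * (k : ℝ) ^ 4 := by
        have e1 : 2 * ((k : ℝ) ^ 4) ^ 2 * (1 / 2) ^ (4 * k) =
            2 * (((k : ℝ) ^ 4) ^ 2 * (1 / 2) ^ (4 * k)) := by ring
        rw [e1]
        gcongr
    _ = 3 * (k : ℝ) ^ 4 + 2 * (4 + 5 * (h + b + 6)) * (k : ℝ) ^ 6 := by ring
    _ ≤ 3 * (k : ℝ) ^ 6 + 2 * (4 + 5 * (h + b + 6)) * (k : ℝ) ^ 6 := by linarith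
    _ = _ := by ring

/-- **Almost sure decay of the Weyl sums.** -/
theorem weyl_ae (hβ2 : ∀ k, 2 ^ k ≤ β k) {b h : ℕ} (hb : 2 ≤ b) (hh : 1 ≤ h) :
    ∀ᵐ ω ∂P, Tendsto (fun N : ℕ => ‖SW (Set.range β) b h N ω‖ / N) atTop (𝓝 0) := by
  obtain ⟨C, hC0, hC⟩ := moment4 hβ2 hb hh
  let f : ℕ → (ℕ → Bool) → ℝ≥0∞ := fun k ω =>
    ENNReal.ofReal ((‖SW (Set.range β) b h ((k + 1) ^ 4) ω‖ / ((k + 1 : ℕ) : ℝ) ^ 4) ^ 2)
  have hfm : ∀ k, Measurable (f k) := fun k =>
    ((((SW_cont _ _).norm.div_const _).pow 2).measurable).ennreal_ofReal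
  have hfi : ∀ k, ∫⁻ ω, f k ω ∂P ≤ ENNReal.ofReal (C * (1 / ((k + 1 : ℕ) : ℝ) ^ 2)) := by
    intro k
    have hint : Integrable (fun ω => (‖SW (Set.range β) b h ((k + 1) ^ 4) ω‖ /
        ((k + 1 : ℕ) : ℝ) ^ 4) ^ 2) P := by
      refine Integrable.of_bound (((SW_cont _ _).norm.div_const _).pow 2).aestronglyMeasurable 1 ?_
      refine ae_of_all _ fun ω => ?_
      rw [Real.norm_eq_abs, abs_of_nonneg (by positivity)]
      apply pow_le_one₀ (by positivity)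
      rw [div_le_one (by positivity)]
      have := SW_norm (Set.range β) (b := b) (h := h) ((k + 1) ^ 4) ω
      push_cast at this ⊢
      exact this
    rw [← ofReal_integral_eq_lintegral_ofReal hint (ae_of_all _ fun ω => by positivity)]
    apply ENNReal.ofReal_le_ofReal
    have h1 : ∀ ω, (‖SW (Set.range β) b h ((k + 1) ^ 4) ω‖ / ((k + 1 : ℕ) : ℝ) ^ 4) ^ 2 =
        (1 / ((k + 1 : ℕ) : ℝ) ^ 8) * ‖SW (Set.range β) b h ((k + 1) ^ 4) ω‖ ^ 2 := by
      intro ω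
      rw [div_pow, ← pow_mul]
      ring
    simp_rw [h1]
    rw [integral_const_mul]
    calc (1 / ((k + 1 : ℕ) : ℝ) ^ 8) * ∫ ω, ‖SW (Set.range β) b h ((k + 1) ^ 4) ω‖ ^ 2 ∂P
        ≤ (1 / ((k + 1 : ℕ) : ℝ) ^ 8) * (C * ((k + 1 : ℕ) : ℝ) ^ 6) := by
          apply mul_le_mul_of_nonneg_left (hC (k + 1) (by omega)) (by positivity)
      _ = _ := by
          field_simp
  have hsum : ∫⁻ ω, ∑' k, f k ω ∂P ≠ ∞ := by
    rw [lintegral_tsum fun k => (hfm k).aemeasurable]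
    refine ne_top_of_le_ne_top ?_ (ENNReal.tsum_le_tsum hfi)
    have hs : Summable fun k : ℕ => C * (1 / ((k + 1 : ℕ) : ℝ) ^ 2) := by
      apply Summable.mul_left
      exact (summable_nat_add_iff 1).2 (Real.summable_one_div_nat_pow.2 (by norm_num))
    rw [← ENNReal.ofReal_tsum_of_nonneg (fun k => by positivity) hs]
    exact ENNReal.ofReal_ne_top
  have hae := ae_lt_top (Measurable.tsum hfm) hsum
  filter_upwards [hae] with ω hω
  have h1 : Tendsto (fun k => f k ω) atTop (𝓝 0) := ENNReal.tendsto_atTop_zero_of_tsum_ne_top hω.ne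
  have h2 : Tendsto (fun k : ℕ => (‖SW (Set.range β) b h ((k + 1) ^ 4) ω‖ / ((k + 1 : ℕ) : ℝ) ^ 4) ^ 2)
      atTop (𝓝 0) := by
    have h3 := (ENNReal.tendsto_toReal ENNReal.zero_ne_top).comp h1
    simp only [ENNReal.toReal_zero] at h3
    refine h3.congr fun k => ?_
    simp only [Function.comp_apply, f]
    rw [ENNReal.toReal_ofReal (by positivity)]
  have h3 : Tendsto (fun k : ℕ => ‖SW (Set.range β) b h ((k + 1) ^ 4) ω‖ / ((k + 1 : ℕ) : ℝ) ^ 4)
      atTop (𝓝 0) := by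
    have h4 := (Real.continuous_sqrt.tendsto 0).comp h2
    rw [Real.sqrt_zero] at h4
    refine h4.congr fun k => ?_
    simp only [Function.comp_apply]
    rw [Real.sqrt_sq (by positivity)]
  have h4 : Tendsto (fun k : ℕ => ‖SW (Set.range β) b h (k ^ 4) ω‖ / (k : ℝ) ^ 4) atTop (𝓝 0) := by
    rw [← tendsto_add_atTop_iff_nat 1]
    exact h3
  exact interp (fun i => (ex_norm _ _).le) h4

end Pool.Agent.TH275.UQ
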