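import Mathlib
import Pool.Agent.TH275.UQ.Basic
import Pool.Agent.TH275.UQ.Uniq
import Pool.Agent.TH275.UQ.Meas
import Pool.Agent.TH275.UQ.Norm
import Pool.Agent.H493R3.Digits

set_option autoImplicit false

/-!
The closed set `K` of points with vanishing digits on a sparse set: uniqueness, almost sure absolute
normality, and the mass distribution bound.
-/

namespace Pool.Agent.TH275.UQ

open Filter Topology MeasureTheory
open scoped ENNReal

/-- choice of the sparse set -/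
lemma exists_beta (φ : ℝ → ℝ) (hpos : ∀ r : ℝ, 0 < r → 0 < φ r)
    (hr : Tendsto (fun r : ℝ => r / φ r) (𝓝[>] (0:ℝ)) (𝓝 0)) :
    ∃ β : ℕ → ℕ, StrictMono β ∧ (∀ k, 2 ^ k ≤ β k) ∧
      ∀ k (r : ℝ), 0 < r → r ≤ (1 / 2) ^ β k → r * 2 ^ (k + 1) ≤ φ r := by
  have h1 : ∀ k : ℕ, ∃ n : ℕ, ∀ r : ℝ, 0 < r → r ≤ (1 / 2) ^ n → r * 2 ^ (k + 1) ≤ φ r := by
    intro k
    have h2 : ∀ᶠ r in 𝓝[>] (0:ℝ), r / φ r < (1 / 2) ^ (k + 1) :=
      hr.eventually (gt_mem_nhds (by positivity))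
    rw [eventually_nhdsWithin_iff, Metric.eventually_nhds_iff] at h2
    obtain ⟨ε, hε, h3⟩ := h2
    obtain ⟨n, hn⟩ := exists_pow_lt_of_lt_one hε (by norm_num : (1 / 2 : ℝ) < 1)
    refine ⟨n, fun r hr0 hrn => ?_⟩
    have h4 := h3 (y := r) (by rw [Real.dist_eq, sub_zero, abs_of_pos hr0]; linarith) hr0
    rw [div_lt_iff₀ (hpos r hr0)] at h4
    have h5 : (2 : ℝ) ^ (k + 1) * (1 / 2) ^ (k + 1) = 1 := by
      rw [← mul_pow]; norm_num
    calc r * 2 ^ (k + 1) ≤ ((1 / 2) ^ (k + 1) * φ r) * 2 ^ (k + 1) :=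
          mul_le_mul_of_nonneg_right h4.le (by positivity)
      _ = (2 ^ (k + 1) * (1 / 2) ^ (k + 1)) * φ r := by ring
      _ = φ r := by rw [h5, one_mul]
  choose n hn using h1
  refine ⟨fun k => ∑ j ∈ Finset.range (k + 1), (n j + 2 ^ j + 1), ?_, ?_, ?_⟩
  · refine strictMono_nat_of_lt_succ fun k => ?_
    change _ < ∑ j ∈ Finset.range (k + 1 + 1), (n j + 2 ^ j + 1)
    rw [Finset.sum_range_succ _ (k + 1)]
    have := Nat.zero_le (n (k + 1) + 2 ^ (k + 1))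
    exact Nat.lt_add_of_pos_right (Nat.succ_pos _)
  · intro k
    change _ ≤ ∑ j ∈ Finset.range (k + 1), (n j + 2 ^ j + 1)
    rw [Finset.sum_range_succ]
    omega
  · intro k r hr0 hrk
    apply hn k r hr0
    refine hrk.trans ?_
    apply pow_le_pow_of_le_one (by norm_num) (by norm_num)
    change _ ≤ ∑ j ∈ Finset.range (k + 1), (n j + 2 ^ j + 1)
    rw [Finset.sum_range_succ]
    have := Nat.zero_le (2 ^ k)
    omega

lemma X_mem_Icc (B : Set ℕ) (ω : ℕ → Bool) : X B ω ∈ Set.Icc (0:ℝ) 1 := by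
  have h1 := Xn_le B 0 ω
  have h2 := X_le B 0 ω
  simp only [Xn, Finset.range_zero, Finset.sum_empty, pow_zero, zero_add] at h1 h2
  exact ⟨h1, h2⟩

/-- The fractional part at a forbidden position. -/
lemma fract_le (B : Set ℕ) (n : ℕ) (hn : n ∈ B) (ω : ℕ → Bool) (x : ℝ) (m : ℤ)
    (hx : x + m = X B ω) : Int.fract ((2 : ℝ) ^ n * x) ≤ 1 / 2 := by
  have h1 := Xn_le B (n + 1) ω
  have h2 := X_le B (n + 1) ω
  have h3 : Xn B (n + 1) ω = Xn B n ω := by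
    unfold Xn
    rw [Finset.sum_range_succ]
    simp [wt, hn]
  rw [h3] at h1 h2
  have h4 := Xn_eq B n ω
  have h5 : (2 : ℝ) ^ n * (1 / 2) ^ n = 1 := by
    rw [← mul_pow]; norm_num
  have h2n : (0 : ℝ) < 2 ^ n := by positivity
  have h6 : (2 : ℝ) ^ n * x = (2 ^ n * (X B ω - Xn B n ω)) + (((V B n ω : ℤ) - 2 ^ n * m : ℤ) : ℝ) := by
    push_cast
    rw [← hx, h4]
    linear_combination (V B n ω : ℝ) * h5
  rw [h6, Int.fract_add_intCast]
  have h7 : 2 ^ n * (X B ω - Xn B n ω) ≤ 1 / 2 := by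
    calc 2 ^ n * (X B ω - Xn B n ω) ≤ 2 ^ n * (1 / 2) ^ (n + 1) :=
          mul_le_mul_of_nonneg_left (by linarith) h2n.le
      _ = (2 ^ n * (1 / 2) ^ n) * (1 / 2) := by ring
      _ = 1 / 2 := by rw [h5, one_mul]
  have h8 : 0 ≤ 2 ^ n * (X B ω - Xn B n ω) := mul_nonneg h2n.le (by linarith)
  rw [Int.fract_eq_self.2 ⟨h8, by linarith⟩]
  exact h7

/-- Uniqueness for `K`. -/
theorem uniqueness (β : ℕ → ℕ) (hβ : StrictMono β) (c : ℤ → ℂ)
    (H : ∀ x : ℝ, (∀ m : ℤ, x + (m:ℝ) ∉ Set.range (X (Set.range β))) →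
      Tendsto (fun N : ℕ => S c N x) atTop (𝓝 0)) (l : ℤ) : c l = 0 := by
  refine uniq c β hβ.tendsto_atTop (fun k x hx => H x fun m hm => ?_) l
  obtain ⟨ω, hω⟩ := hm
  have := fract_le (Set.range β) (β k) ⟨k, rfl⟩ ω x m hω.symm
  linarith

/-- the set of the absolutely normal numbers -/
def Anormal : Set ℝ := {x : ℝ | ∀ b : ℕ, 2 ≤ b → ∀ k : ℕ, ∀ w : Fin k → ℤ,
            (∀ j : Fin k, 0 ≤ w j ∧ w j < (b:ℤ)) →
            Tendsto (fun N : ℕ =>
              ((((Finset.range N).filter (fun i : ℕ =>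
                ∀ j : Fin k, ⌊x * (b:ℝ) ^ (i + j.val + 1)⌋ % (b:ℤ) = w j)).card : ℝ) / (N:ℝ)))
              atTop (𝓝 (1 / (b:ℝ) ^ k))}

lemma ae_normal (β : ℕ → ℕ) (hβ2 : ∀ k, 2 ^ k ≤ β k) :
    ∀ᵐ ω ∂P, X (Set.range β) ω ∈ Anormal := by
  have h1 : ∀ᵐ ω ∂P, ∀ b h : ℕ, 2 ≤ b → 1 ≤ h →
      Tendsto (fun N : ℕ => ‖SW (Set.range β) b h N ω‖ / N) atTop (𝓝 0) := by
    rw [ae_all_iff]
    intro b
    rw [ae_all_iff]
    intro h
    by_cases hb : 2 ≤ b
    · by_cases hh : 1 ≤ h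
      · filter_upwards [weyl_ae hβ2 hb hh] with ω hω _ _ using hω
      · exact ae_of_all _ fun ω _ hc => absurd hc hh
    · exact ae_of_all _ fun ω hc => absurd hc hb
  filter_upwards [h1] with ω hω
  intro b hb k w hw
  have h2 := Pool.Agent.H493R3.block_freq b hb (X (Set.range β) ω) (fun h hh => by
    have h3 := hω b h hb hh
    refine h3.congr fun N => ?_
    unfold SW
    congr 2
    refine Finset.sum_congr rfl fun i _ => ?_
    unfold ex Pool.Agent.H493R3.ee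
    congr 1
    push_cast
    ring) k (fun j => ⟨(w j).toNat, by have := hw j; omega⟩)
  refine h2.congr fun N => ?_
  congr 2
  apply congrArg
  apply Finset.filter_congr
  intro i _
  apply forall_congr'
  intro j
  have e1 : i + 1 + (j : ℕ) = i + (j : ℕ) + 1 := by omega
  have e2 : (((w j).toNat : ℕ) : ℤ) = w j := Int.toNat_of_nonneg (hw j).1
  simp only [e1, e2]

/-- counting the elements of `B` below `n` -/
lemma lt_of_cB {β : ℕ → ℕ} (hβ : StrictMono β) (n s : ℕ) (hs : s + 1 ≤ cB (Set.range β) n) :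
    β s < n := by
  classical
  by_contra hc
  push Not at hc
  have hsub : (Finset.range n).filter (· ∈ Set.range β) ⊆ (Finset.range s).image β := by
    intro t ht
    rw [Finset.mem_filter, Finset.mem_range] at ht
    obtain ⟨h1, k, rfl⟩ := ht
    rw [Finset.mem_image]
    refine ⟨k, Finset.mem_range.2 ?_, rfl⟩
    exact hβ.lt_iff_lt.1 (lt_of_lt_of_le h1 hc)
  have h1 : cB (Set.range β) n ≤ s := by
    unfold cB
    convert (Finset.card_le_card hsub).trans (Finset.card_image_le.trans ?_)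
    simp
  omega

/-- The mass distribution bound. -/
lemma mass {φ : ℝ → ℝ} {β : ℕ → ℕ} (hβ : StrictMono β)
    (hφ : ∀ k (r : ℝ), 0 < r → r ≤ (1 / 2) ^ β k → r * 2 ^ (k + 1) ≤ φ r)
    (r : ℝ) (hr0 : 0 < r) (hr1 : r ≤ (1 / 2) ^ (β 0 + 1)) (U : Set ℝ)
    (hU : ∀ x ∈ U, ∀ y ∈ U, |x - y| ≤ r) :
    P (X (Set.range β) ⁻¹' U) ≤ 8 * ENNReal.ofReal (φ r) := by
  classical
  have hr2 : r ≤ 1 := hr1.trans (pow_le_one₀ (by norm_num) (by norm_num))
  obtain ⟨n, hn1, hn2⟩ := exists_nat_pow_near_of_lt_one hr0 hr2 (by norm_num : (0:ℝ) < 1 / 2)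
    (by norm_num)
  have hn3 : β 0 < n := by
    by_contra hc
    push Not at hc
    have : ((1 / 2 : ℝ)) ^ (β 0 + 1) ≤ (1 / 2) ^ (n + 1) :=
      pow_le_pow_of_le_one (by norm_num) (by norm_num) (by omega)
    linarith
  have hs : 1 ≤ cB (Set.range β) n := by
    unfold cB
    refine Finset.one_le_card.2 ⟨β 0, ?_⟩
    rw [Finset.mem_filter, Finset.mem_range]
    exact ⟨hn3, 0, rfl⟩
  obtain ⟨s, hs'⟩ : ∃ s, cB (Set.range β) n = s + 1 := ⟨cB (Set.range β) n - 1, by omega⟩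
  have hβs : β s < n := lt_of_cB hβ n s hs'.ge
  have hn4 : r ≤ (1 / 2) ^ β s :=
    hn2.trans (pow_le_pow_of_le_one (by norm_num) (by norm_num) hβs.le)
  have h1 := hφ s r hr0 hn4
  have h2 := small_prob (Set.range β) n U (fun x hx y hy => (hU x hx y hy).trans hn2)
  refine h2.trans ?_
  have hle : s + 1 ≤ n := hs' ▸ cB_le (Set.range β) n
  have e1 : (2⁻¹ : ℝ≥0∞) = ENNReal.ofReal (1 / 2) := by
    rw [one_div, ENNReal.ofReal_inv_of_pos (by norm_num)]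
    simp
  have e4 : (4 : ℝ≥0∞) = ENNReal.ofReal 4 := by simp
  have e8 : (8 : ℝ≥0∞) = ENNReal.ofReal 8 := by simp
  rw [e1, e4, e8, ← ENNReal.ofReal_pow (by norm_num), ← ENNReal.ofReal_mul (by norm_num),
    ← ENNReal.ofReal_mul (by norm_num)]
  apply ENNReal.ofReal_le_ofReal
  rw [hs']
  have e2 : ((1 / 2 : ℝ)) ^ (n - (s + 1)) = 2 ^ (s + 1) * (1 / 2) ^ n := by
    obtain ⟨t, rfl⟩ := Nat.exists_eq_add_of_le hle
    rw [Nat.add_sub_cancel_left, pow_add (1 / 2 : ℝ) (s + 1) t, ← mul_assoc, ← mul_pow]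
    norm_num
  rw [e2]
  have e3 : ((1 / 2 : ℝ)) ^ n = 2 * (1 / 2) ^ (n + 1) := by ring
  calc 4 * (2 ^ (s + 1) * (1 / 2 : ℝ) ^ n) = 8 * ((1 / 2) ^ (n + 1) * 2 ^ (s + 1)) := by
        rw [e3]; ring
    _ ≤ 8 * (r * 2 ^ (s + 1)) := by
        apply mul_le_mul_of_nonneg_left _ (by norm_num)
        exact mul_le_mul_of_nonneg_right hn1.le (by positivity)
    _ ≤ 8 * φ r := mul_le_mul_of_nonneg_left h1 (by norm_num)

/-- The mass distribution bound in terms of the diameter. -/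
lemma mass_ediam {φ : ℝ → ℝ} {β : ℕ → ℕ} (hβ : StrictMono β)
    (hφ0 : Tendsto φ (𝓝[>] (0:ℝ)) (𝓝 0))
    (hφ : ∀ k (r : ℝ), 0 < r → r ≤ (1 / 2) ^ β k → r * 2 ^ (k + 1) ≤ φ r)
    (U : Set ℝ) (hd : Metric.ediam U ≤ ENNReal.ofReal ((1 / 2) ^ (β 0 + 1))) :
    P (X (Set.range β) ⁻¹' U) ≤ 8 * ENNReal.ofReal (φ (Metric.ediam U).toReal) := by
  have hfin : Metric.ediam U ≠ ⊤ := ne_top_of_le_ne_top ENNReal.ofReal_ne_top hd
  have hd2 : (Metric.ediam U).toReal ≤ (1 / 2) ^ (β 0 + 1) :=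
    ENNReal.toReal_le_of_le_ofReal (by positivity) hd
  have hU : ∀ x ∈ U, ∀ y ∈ U, |x - y| ≤ (Metric.ediam U).toReal := by
    intro x hx y hy
    have h1 := Metric.edist_le_ediam_of_mem hx hy
    rw [← Real.dist_eq, dist_edist]
    exact ENNReal.toReal_mono hfin h1
  rcases (ENNReal.toReal_nonneg (a := Metric.ediam U)).eq_or_lt with h0 | h0
  · rw [← h0] at hU
    have h2 : P (X (Set.range β) ⁻¹' U) ≤ 0 := by
      have h3 : Tendsto (fun r => 8 * ENNReal.ofReal (φ r)) (𝓝[>] (0:ℝ)) (𝓝 (8 * ENNReal.ofReal 0)) :=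
        ENNReal.Tendsto.const_mul (ENNReal.tendsto_ofReal hφ0) (Or.inr (by norm_num))
      rw [ENNReal.ofReal_zero, mul_zero] at h3
      refine ge_of_tendsto h3 ?_
      have h4 : Set.Ioc (0:ℝ) ((1 / 2) ^ (β 0 + 1)) ∈ 𝓝[>] (0:ℝ) :=
        Ioc_mem_nhdsGT (by positivity)
      filter_upwards [h4] with r hr
      exact mass hβ hφ r hr.1 hr.2 U fun x hx y hy => (hU x hx y hy).trans hr.1.le
    exact h2.trans zero_le
  · exact mass hβ hφ _ h0 hd2 U hU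

/-- Positivity of the Hausdorff measure. -/
theorem pos_measure {φ : ℝ → ℝ} {β : ℕ → ℕ} (hβ : StrictMono β) (hβ2 : ∀ k, 2 ^ k ≤ β k)
    (hφ0 : Tendsto φ (𝓝[>] (0:ℝ)) (𝓝 0))
    (hφ : ∀ k (r : ℝ), 0 < r → r ≤ (1 / 2) ^ β k → r * 2 ^ (k + 1) ≤ φ r) :
    0 < MeasureTheory.Measure.mkMetric (fun r : ℝ≥0∞ => ENNReal.ofReal (φ r.toReal))
      (Set.range (X (Set.range β)) ∩ Anormal) := by
  set s : Set ℝ := Set.range (X (Set.range β)) ∩ Anormal with hs
  have hone : P (X (Set.range β) ⁻¹' s) = 1 := by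
    have h1 : X (Set.range β) ⁻¹' s =ᵐ[P] (Set.univ : Set (ℕ → Bool)) := by
      rw [eventuallyEq_univ]
      filter_upwards [ae_normal β hβ2] with ω hω
      exact ⟨⟨ω, rfl⟩, hω⟩
    rw [measure_congr h1, measure_univ]
  have hkey : (8 : ℝ≥0∞)⁻¹ ≤
      MeasureTheory.Measure.mkMetric (fun r : ℝ≥0∞ => ENNReal.ofReal (φ r.toReal)) s := by
    rw [Measure.mkMetric_apply]
    refine le_iSup₂_of_le (ENNReal.ofReal ((1 / 2) ^ (β 0 + 1)))
      (ENNReal.ofReal_pos.2 (by positivity)) ?_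
    refine le_iInf fun t => le_iInf fun ht => le_iInf fun hd => ?_
    rw [← one_mul (8 : ℝ≥0∞)⁻¹, ← div_eq_mul_inv]
    apply ENNReal.div_le_of_le_mul'
    rw [← ENNReal.tsum_mul_left, ← hone]
    have h1 : X (Set.range β) ⁻¹' s ⊆ ⋃ n, X (Set.range β) ⁻¹' (t n) := by
      rw [← Set.preimage_iUnion]
      exact Set.preimage_mono ht
    refine (measure_mono h1).trans ((measure_iUnion_le _).trans ?_)
    refine ENNReal.tsum_le_tsum fun n => ?_
    rcases (t n).eq_empty_or_nonempty with he | hne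
    · rw [he]
      simp
    · refine (mass_ediam hβ hφ0 hφ (t n) (hd n)).trans ?_
      gcongr
      exact le_iSup_of_le hne le_rfl
  exact lt_of_lt_of_le (by simp) hkey

end Pool.Agent.TH275.UQ
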